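import Pool.Agent.P.MP_0f9430_co.Defs

/-! A checker for refutations of unit representations. -/

namespace Pool.Agent.P.MP_0f9430_co

/-- linear facts: from an edge, from a case assumption, from the orientation -/
inductive Fc where
  | e : ℕ → ℕ → ℕ → Fc
  | c : ℕ → ℕ → ℕ → Fc
  | o : Fc

/-- refutation trees -/
inductive Ct where
  | leaf : List Fc → Ct
  | node : ℕ → ℕ → Ct → Ct → Ct → Ct → Ct

def Fc.up (b : ℕ) : Fc → List ℕ
  | .e _ v w => [2 * w + 1, 2 * v]
  | .c u _ _ => [2 * u]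
  | .o => [2 * b]

def Fc.dn (a : ℕ) : Fc → List ℕ
  | .e u _ _ => [2 * u]
  | .c _ v w => [2 * v, 2 * w + 1]
  | .o => [2 * a]

def Fc.strict : Fc → Bool
  | .c _ _ _ => true
  | _ => false

def Fc.ok (E : ℕ → ℕ → Bool) (ctx : List (ℕ × ℕ × ℕ)) : Fc → Bool
  | .e u v w => E u v && (w == u || w == v)
  | .c u v w => ctx.any fun p => p.1 == u && p.2.1 == v && p.2.2 == w
  | .o => true

def Ct.check (E F : ℕ → ℕ → Bool) (a b : ℕ) : Ct → List (ℕ × ℕ × ℕ) → Bool
  | .leaf l, ctx => l.all (Fc.ok E ctx) && l.any Fc.strict &&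
      (l.flatMap (Fc.up b)).isPerm (l.flatMap (Fc.dn a))
  | .node u v t₀ t₁ t₂ t₃, ctx => F u v && t₀.check E F a b ((u, v, u) :: ctx) &&
      t₁.check E F a b ((v, u, u) :: ctx) && t₂.check E F a b ((u, v, v) :: ctx) &&
      t₃.check E F a b ((v, u, v) :: ctx)

section

variable {E F : ℕ → ℕ → Bool} {a b : ℕ} {x s y : ℕ → ℝ}

theorem Fc.sound (hx : ∀ i, y (2 * i) = x i) (hs : ∀ i, y (2 * i + 1) = s i)
    (hE : ∀ u v, E u v = true → |x u - x v| ≤ s u ∧ |x u - x v| ≤ s v) (ho : x a ≤ x b)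
    {ctx : List (ℕ × ℕ × ℕ)} (hc : ∀ p ∈ ctx, s p.2.2 < x p.1 - x p.2.1) (f : Fc)
    (h : f.ok E ctx = true) : ((f.dn a).map y).sum ≤ ((f.up b).map y).sum ∧
      (f.strict = true → ((f.dn a).map y).sum < ((f.up b).map y).sum) := by
  cases f with
  | e u v w =>
    simp only [Fc.ok, Bool.and_eq_true, Bool.or_eq_true, beq_iff_eq] at h
    obtain ⟨h1, h2⟩ := hE u v h.1
    have h3 := le_abs_self (x u - x v)
    refine ⟨?_, fun h => by simp [Fc.strict] at h⟩
    simp only [Fc.dn, Fc.up, List.map_cons, List.map_nil, List.sum_cons, List.sum_nil, hx, hs]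
    rcases h.2 with rfl | rfl <;> linarith
  | c u v w =>
    simp only [Fc.ok, List.any_eq_true, Bool.and_eq_true, beq_iff_eq] at h
    obtain ⟨p, hp, ⟨rfl, rfl⟩, rfl⟩ := h
    have h1 := hc p hp
    simp only [Fc.dn, Fc.up, List.map_cons, List.map_nil, List.sum_cons, List.sum_nil, hx, hs]
    exact ⟨by linarith, fun _ => by linarith⟩
  | o =>
    refine ⟨?_, fun h => by simp [Fc.strict] at h⟩
    simp only [Fc.dn, Fc.up, List.map_cons, List.map_nil, List.sum_cons, List.sum_nil, hx]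
    linarith

theorem list_sound {l : List Fc}
    (h : ∀ f ∈ l, ((f.dn a).map y).sum ≤ ((f.up b).map y).sum ∧
      (f.strict = true → ((f.dn a).map y).sum < ((f.up b).map y).sum)) :
    ((l.flatMap (Fc.dn a)).map y).sum ≤ ((l.flatMap (Fc.up b)).map y).sum ∧
      (l.any Fc.strict = true →
        ((l.flatMap (Fc.dn a)).map y).sum < ((l.flatMap (Fc.up b)).map y).sum) := by
  induction l with
  | nil => simp
  | cons f l ih =>
    obtain ⟨h1, h2⟩ := ih fun g hg => h g (List.mem_cons_of_mem _ hg)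
    obtain ⟨h3, h4⟩ := h f List.mem_cons_self
    simp only [List.flatMap_cons, List.map_append, List.sum_append, List.any_cons,
      Bool.or_eq_true]
    refine ⟨by linarith, fun h5 => ?_⟩
    rcases h5 with h5 | h5
    · linarith [h4 h5]
    · linarith [h2 h5]

theorem Ct.sound (hE : ∀ u v, E u v = true → |x u - x v| ≤ s u ∧ |x u - x v| ≤ s v)
    (hF : ∀ u v, F u v = true → ¬ (|x u - x v| ≤ s u ∧ |x u - x v| ≤ s v)) (ho : x a ≤ x b)
    (t : Ct) : ∀ ctx : List (ℕ × ℕ × ℕ), (∀ p ∈ ctx, s p.2.2 < x p.1 - x p.2.1) →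
      t.check E F a b ctx = true → False := by
  induction t with
  | leaf l =>
    intro ctx hc h
    simp only [Ct.check, Bool.and_eq_true, List.all_eq_true, List.isPerm_iff] at h
    let y : ℕ → ℝ := fun i => if i % 2 = 0 then x (i / 2) else s (i / 2)
    have hx : ∀ i, y (2 * i) = x i := fun i => by simp [y]
    have hs : ∀ i, y (2 * i + 1) = s i := fun i => by
      have h1 : (2 * i + 1) / 2 = i := by omega
      have h2 : ¬ (2 * i + 1) % 2 = 0 := by omega
      simp only [y, if_neg h2, h1]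
    have h1 := (list_sound fun f hf => Fc.sound hx hs hE ho hc f (h.1.1 f hf)).2 h.1.2
    rw [(h.2.map y).sum_eq] at h1
    exact lt_irrefl _ h1
  | node u v t₀ t₁ t₂ t₃ i₀ i₁ i₂ i₃ =>
    intro ctx hc h
    simp only [Ct.check, Bool.and_eq_true] at h
    obtain ⟨⟨⟨⟨h0, h1⟩, h2⟩, h3⟩, h4⟩ := h
    have h5 := hF u v h0
    rw [not_and_or, not_le, not_le, lt_abs, lt_abs, neg_sub] at h5
    rcases h5 with (h5 | h5) | h5 | h5
    · exact i₀ _ (List.forall_mem_cons.2 ⟨h5, hc⟩) h1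
    · exact i₁ _ (List.forall_mem_cons.2 ⟨h5, hc⟩) h2
    · exact i₂ _ (List.forall_mem_cons.2 ⟨h5, hc⟩) h3
    · exact i₃ _ (List.forall_mem_cons.2 ⟨h5, hc⟩) h4

end

theorem not_unitMax_of_check {n : ℕ} {G : SimpleGraph (Fin n)} {E F : ℕ → ℕ → Bool}
    (hE : ∀ u v, E u v = true → ∃ (hu : u < n) (hv : v < n), G.Adj ⟨u, hu⟩ ⟨v, hv⟩)
    (hF : ∀ u v, F u v = true → ∃ (hu : u < n) (hv : v < n), u ≠ v ∧ ¬ G.Adj ⟨u, hu⟩ ⟨v, hv⟩)
    {a b : ℕ} {t : Ct} (h : t.check E F a b [] = true) : ¬ UnitMax G := by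
  intro hG
  obtain ⟨x, s, hx⟩ := central_of_unitMax hG
  let X : ℕ → ℝ := fun i => if h : i < n then x ⟨i, h⟩ else 0
  let S : ℕ → ℝ := fun i => if h : i < n then s ⟨i, h⟩ else 0
  have h1 : ∀ u v, E u v = true → |X u - X v| ≤ S u ∧ |X u - X v| ≤ S v := by
    intro u v huv
    obtain ⟨hu, hv, h2⟩ := hE u v huv
    simp only [X, S, dif_pos hu, dif_pos hv]
    exact (hx _ _ h2.ne).1 h2
  have h2 : ∀ u v, F u v = true → ¬ (|X u - X v| ≤ S u ∧ |X u - X v| ≤ S v) := by
    intro u v huv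
    obtain ⟨hu, hv, h3, h4⟩ := hF u v huv
    simp only [X, S, dif_pos hu, dif_pos hv]
    exact fun h5 => h4 ((hx _ _ fun e => h3 (congrArg Fin.val e)).2 h5)
  rcases le_total (X a) (X b) with h3 | h3
  · exact Ct.sound h1 h2 h3 t [] (by simp) h
  · refine Ct.sound (x := fun i => -X i) (s := S) (fun u v huv => ?_) (fun u v huv => ?_)
      (neg_le_neg h3) t [] (by simp) h
    · rw [neg_sub_neg, abs_sub_comm]; exact h1 u v huv
    · rw [neg_sub_neg, abs_sub_comm]; exact h2 u v huv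

theorem properMax_of_int {V : Type} {G : SimpleGraph V} (L R t : V → ℤ) (h1 : ∀ v, L v ≤ R v)
    (h2 : ∀ v, 0 < t v)
    (h3 : ∀ u v, u ≠ v → (G.Adj u v ↔ max (t u) (t v) ≤ min (R u) (R v) - max (L u) (L v)))
    (h4 : ∀ u v, u ≠ v → L u < L v ∨ R v < R u) : ProperMax G := by
  refine ⟨⟨fun v => L v, fun v => R v, fun v => t v, fun v => by exact_mod_cast h1 v,
    fun v => by exact_mod_cast h2 v⟩, fun u v huv => ?_, fun u v huv h => ?_⟩
  · rw [le_len_iff _ _ _ (lt_max_of_lt_left (by have := h2 u; dsimp only; exact_mod_cast this)),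
      h3 u v huv]
    dsimp only
    exact_mod_cast Iff.rfl
  · have h5 : (L u : ℝ) ≤ R u := by exact_mod_cast h1 u
    have h6 := (Set.Icc_subset_Icc_iff h5).1 h
    rcases h4 u v huv with h7 | h7
    · have : (L u : ℝ) < L v := by exact_mod_cast h7
      exact absurd h6.1 (not_le.2 this)
    · have : (R v : ℝ) < R u := by exact_mod_cast h7
      exact absurd h6.2 (not_le.2 this)

end Pool.Agent.P.MP_0f9430_co
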