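import Mathlib

/-! Tolerance representations of graphs. -/

namespace Pool.Agent.P.MP_0f9430_co

/-- length (Lebesgue measure) of a set of reals -/
noncomputable def len (S : Set ℝ) : ℝ := (MeasureTheory.volume S).toReal

/-- closed intervals `[L v, R v]` and positive tolerances `t v` -/
structure Rep (V : Type) where
  L : V → ℝ
  R : V → ℝ
  t : V → ℝ
  le : ∀ v, L v ≤ R v
  pos : ∀ v, 0 < t v

variable {V : Type}

/-- the interval of a vertex -/
def Rep.I (ρ : Rep V) (v : V) : Set ℝ := Set.Icc (ρ.L v) (ρ.R v)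

/-- `ρ` is a max-tolerance representation of `G` -/
def Rep.IsMax (ρ : Rep V) (G : SimpleGraph V) : Prop :=
  ∀ u v, u ≠ v → (G.Adj u v ↔ max (ρ.t u) (ρ.t v) ≤ len (ρ.I u ∩ ρ.I v))

/-- `ρ` is a sum-tolerance representation of `G` -/
def Rep.IsSum (ρ : Rep V) (G : SimpleGraph V) : Prop :=
  ∀ u v, u ≠ v → (G.Adj u v ↔ ρ.t u + ρ.t v ≤ len (ρ.I u ∩ ρ.I v))

/-- `G` is a unit max-tolerance graph -/
def UnitMax (G : SimpleGraph V) : Prop :=
  ∃ ρ : Rep V, ρ.IsMax G ∧ ∀ u v, ρ.R u - ρ.L u = ρ.R v - ρ.L v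

/-- `G` is a proper max-tolerance graph -/
def ProperMax (G : SimpleGraph V) : Prop :=
  ∃ ρ : Rep V, ρ.IsMax G ∧ ∀ u v, u ≠ v → ¬ ρ.I u ⊆ ρ.I v

theorem le_len_iff (ρ : Rep V) (u v : V) {a : ℝ} (ha : 0 < a) :
    a ≤ len (ρ.I u ∩ ρ.I v) ↔ a ≤ min (ρ.R u) (ρ.R v) - max (ρ.L u) (ρ.L v) := by
  rw [len, Rep.I, Rep.I, Set.Icc_inter_Icc, Real.volume_Icc, ENNReal.toReal_ofReal']
  rw [le_max_iff]
  exact ⟨fun h => h.elim id fun h => absurd h (not_le.2 ha), Or.inl⟩

/-- unit representations are the same as centres with radii -/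
theorem unitMax_of_central [Finite V] {G : SimpleGraph V} (x s : V → ℝ)
    (h : ∀ u v, u ≠ v → (G.Adj u v ↔ |x u - x v| ≤ s u ∧ |x u - x v| ≤ s v)) : UnitMax G := by
  obtain ⟨c, hc⟩ := (Set.finite_range s).bddAbove
  have hc' : ∀ v, s v ≤ max c 0 := fun v => (hc ⟨v, rfl⟩).trans (le_max_left _ _)
  have h0 : 0 ≤ max c 0 := le_max_right _ _
  refine ⟨⟨x, fun v => x v + (max c 0 + 1), fun v => max c 0 + 1 - s v, fun v => by linarith,
    fun v => by linarith [hc' v]⟩, fun u v huv => ?_, fun u v => by simp⟩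
  rw [le_len_iff _ _ _ (lt_max_of_lt_left (by have := hc' u; dsimp only; linarith)), h u v huv]
  dsimp only
  rw [max_le_iff]
  rcases le_total (x u) (x v) with h1 | h1
  · rw [abs_of_nonpos (sub_nonpos.2 h1), max_eq_right h1, min_eq_left (by linarith)]
    constructor <;> rintro ⟨h2, h3⟩ <;> constructor <;> linarith
  · rw [abs_of_nonneg (sub_nonneg.2 h1), max_eq_left h1, min_eq_right (by linarith)]
    constructor <;> rintro ⟨h2, h3⟩ <;> constructor <;> linarith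

theorem central_of_unitMax {G : SimpleGraph V} (h : UnitMax G) : ∃ x s : V → ℝ,
    ∀ u v, u ≠ v → (G.Adj u v ↔ |x u - x v| ≤ s u ∧ |x u - x v| ≤ s v) := by
  obtain ⟨ρ, h, hu⟩ := h
  refine ⟨ρ.L, fun v => ρ.R v - ρ.L v - ρ.t v, fun u v huv => ?_⟩
  rw [h u v huv, le_len_iff _ _ _ (lt_max_of_lt_left (ρ.pos u)), max_le_iff]
  have e := hu u v
  rcases le_total (ρ.L u) (ρ.L v) with h1 | h1
  · rw [abs_of_nonpos (sub_nonpos.2 h1), max_eq_right h1, min_eq_left (by linarith)]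
    constructor <;> rintro ⟨h2, h3⟩ <;> constructor <;> linarith
  · rw [abs_of_nonneg (sub_nonneg.2 h1), max_eq_left h1, min_eq_right (by linarith)]
    constructor <;> rintro ⟨h2, h3⟩ <;> constructor <;> linarith

end Pool.Agent.P.MP_0f9430_co
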