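import Pool.Agent.P.MP_0f9430_co.Defs

/-! Laminar families are families of balls of a subset of the line. -/

namespace Pool.Agent.P.MP_0f9430_co

open Finset

theorem digit_lt (d : ℕ → ℝ) (hd : ∀ j, |d j| ≤ 1) (N : ℕ) :
    2 * |∑ j ∈ range N, d j * 3 ^ j| < 3 ^ N := by
  induction N with
  | zero => simp
  | succ N ih =>
    rw [sum_range_succ, pow_succ]
    have h1 : |d N * 3 ^ N| ≤ 3 ^ N := by
      rw [abs_mul, abs_of_pos (by positivity : (0 : ℝ) < 3 ^ N)]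
      exact mul_le_of_le_one_left (by positivity) (hd N)
    have h2 := abs_add_le (∑ j ∈ range N, d j * 3 ^ j) (d N * 3 ^ N)
    linarith

theorem digit_small (d : ℕ → ℝ) (hd : ∀ j, |d j| ≤ 1) (k : ℕ) (h0 : ∀ j, k ≤ j → d j = 0) (N : ℕ) :
    2 * |∑ j ∈ range N, d j * 3 ^ j| < 3 ^ k := by
  induction N with
  | zero => simp
  | succ N ih =>
    rcases le_or_gt k N with h | h
    · rw [sum_range_succ, h0 N h, zero_mul, add_zero]; exact ih
    · exact (digit_lt d hd (N + 1)).trans_le (pow_le_pow_right₀ (by norm_num) h)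

theorem digit_big (d : ℕ → ℝ) (hd : ∀ j, d j = 0 ∨ |d j| = 1) (k : ℕ) (h0 : d k ≠ 0) (N : ℕ)
    (hN : k < N) : 3 ^ k < 2 * |∑ j ∈ range N, d j * 3 ^ j| := by
  have hd' : ∀ j, |d j| ≤ 1 := fun j => (hd j).elim (fun h => by simp [h]) le_of_eq
  induction N with
  | zero => omega
  | succ N ih =>
    rw [sum_range_succ]
    rcases hd N with h | h
    · have : k ≠ N := fun e => h0 (e ▸ h)
      rw [h, zero_mul, add_zero]
      exact ih (by omega)
    · have h1 : |d N * 3 ^ N| = 3 ^ N := by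
        rw [abs_mul, h, one_mul, abs_of_pos (by positivity)]
      have h2 := digit_lt d hd' N
      have h3 := abs_sub (∑ j ∈ range N, d j * 3 ^ j + d N * 3 ^ N) (∑ j ∈ range N, d j * 3 ^ j)
      rw [add_sub_cancel_left, h1] at h3
      have h4 : (3 : ℝ) ^ k ≤ 3 ^ N := pow_le_pow_right₀ (by norm_num) (by omega)
      linarith

variable {V : Type}

theorem exists_rank [Finite V] : ∃ (k : Set V → ℕ) (N : ℕ), Function.Injective k ∧ StrictMono k ∧
    ∀ C, k C < N := by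
  obtain ⟨M, ⟨e⟩⟩ := Finite.exists_equiv_fin (Set V)
  refine ⟨fun C => (e C : ℕ) + M * C.ncard, M * (Nat.card V + 1), fun C D h => ?_,
    fun C D h => ?_, fun C => ?_⟩
  · have h1 := congrArg (· % M) h
    simp only [Nat.add_mul_mod_self_left, Nat.mod_eq_of_lt (e C).2, Nat.mod_eq_of_lt (e D).2] at h1
    exact e.injective (Fin.ext h1)
  · have h1 : C.ncard < D.ncard := Set.ncard_lt_ncard h (Set.toFinite D)
    have h2 := (e C).2
    have h3 : M * (C.ncard + 1) ≤ M * D.ncard := Nat.mul_le_mul_left M h1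
    show (e C : ℕ) + M * C.ncard < (e D : ℕ) + M * D.ncard
    rw [mul_add, mul_one] at h3
    omega
  · have h1 : C.ncard ≤ Nat.card V := Set.ncard_le_card C
    have h2 := (e C).2
    have h3 : M * C.ncard ≤ M * Nat.card V := Nat.mul_le_mul_left M h1
    show (e C : ℕ) + M * C.ncard < M * (Nat.card V + 1)
    rw [mul_add, mul_one]
    omega

/-- every member of a laminar family is a ball around each of its points -/
theorem laminar_embed [Finite V] (F : Set (Set V))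
    (hF : ∀ C ∈ F, ∀ D ∈ F, (C ∩ D).Nonempty → C ⊆ D ∨ D ⊆ C) :
    ∃ (x : V → ℝ) (r : Set V → ℝ), ∀ C ∈ F, ∀ u ∈ C, ∀ v, v ∈ C ↔ |x u - x v| ≤ r C := by
  classical
  obtain ⟨k, N, hi, hm, hN⟩ := exists_rank (V := V)
  let a : V → ℕ → ℝ := fun u j => if ∃ C ∈ F, k C = j ∧ u ∈ C then 1 else 0
  refine ⟨fun u => ∑ j ∈ range N, a u j * 3 ^ j, fun C => 3 ^ k C / 2, fun C hC u hu v => ?_⟩
  have e : (∑ j ∈ range N, a u j * 3 ^ j) - ∑ j ∈ range N, a v j * 3 ^ j =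
      ∑ j ∈ range N, (a u j - a v j) * 3 ^ j := by
    rw [← sum_sub_distrib]
    exact sum_congr rfl fun j _ => by ring
  have hd : ∀ j, a u j - a v j = 0 ∨ |a u j - a v j| = 1 := by
    intro j
    simp only [a]
    split_ifs <;> simp
  have up : ∀ w ∈ C, ∀ w' ∈ C, ∀ j, k C ≤ j → (∃ D ∈ F, k D = j ∧ w ∈ D) →
      ∃ D ∈ F, k D = j ∧ w' ∈ D := by
    rintro w hw w' hw' j hj ⟨D, hD, rfl, hwD⟩
    refine ⟨D, hD, rfl, ?_⟩
    rcases hF C hC D hD ⟨w, hw, hwD⟩ with h | h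
    · exact h hw'
    · rcases h.eq_or_ssubset with h' | h'
      · exact h' ▸ hw'
      · exact absurd (hm h') (not_lt.2 hj)
  show _ ↔ |(∑ j ∈ range N, a u j * 3 ^ j) - ∑ j ∈ range N, a v j * 3 ^ j| ≤ 3 ^ k C / 2
  rw [e]
  constructor
  · intro hv
    have := digit_small (fun j => a u j - a v j)
      (fun j => (hd j).elim (fun h => by simp [h]) le_of_eq) (k C) (fun j hj => ?_) N
    · linarith
    · simp only [a]
      rw [if_congr ⟨up u hu v hv j hj, up v hv u hu j hj⟩ rfl rfl, sub_self]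
  · intro h
    by_contra hv
    have h1 : a u (k C) = 1 := if_pos ⟨C, hC, rfl, hu⟩
    have h2 : a v (k C) = 0 := if_neg (by
      rintro ⟨D, -, hD, hvD⟩
      exact hv (hi hD ▸ hvD))
    have := digit_big (fun j => a u j - a v j) hd (k C) (by simp [h1, h2]) N (hN C)
    linarith

/-- mutual catching for a laminar family gives a unit representation -/
theorem unitMax_of_laminar [Finite V] {G : SimpleGraph V} (C : V → Set V)
    (hC : ∀ u v, (C u ∩ C v).Nonempty → C u ⊆ C v ∨ C v ⊆ C u)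
    (hs : ∀ u, u ∈ C u ∨ C u = ∅) (h : ∀ u v, u ≠ v → (G.Adj u v ↔ v ∈ C u ∧ u ∈ C v)) :
    UnitMax G := by
  classical
  obtain ⟨x, r, hx⟩ := laminar_embed (Set.range C) (by
    rintro _ ⟨u, rfl⟩ _ ⟨v, rfl⟩
    exact hC u v)
  have key : ∀ u v, v ∈ C u ↔ |x u - x v| ≤ if u ∈ C u then r (C u) else -1 := by
    intro u v
    split_ifs with hu
    · exact hx _ ⟨u, rfl⟩ u hu v
    · rw [(hs u).resolve_left hu]
      have := abs_nonneg (x u - x v)
      exact ⟨fun h => h.elim, fun h => by linarith⟩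
  refine unitMax_of_central x (fun u => if u ∈ C u then r (C u) else -1) fun u v huv => ?_
  rw [h u v huv, key u v, key v u, abs_sub_comm (x v)]

/-- intersection graphs of convex chains in a tree order -/
theorem unitMax_of_tree [Finite V] {N : Type} [PartialOrder N]
    (hN : ∀ a b c : N, a ≤ c → b ≤ c → a ≤ b ∨ b ≤ a) (P : V → Set N)
    (hc : ∀ v, IsChain (· ≤ ·) (P v)) (ho : ∀ v, (P v).OrdConnected) {G : SimpleGraph V}
    (h : ∀ u v, u ≠ v → (G.Adj u v ↔ (P u ∩ P v).Nonempty)) : UnitMax G := by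
  have tot : ∀ v, ∀ a ∈ P v, ∀ b ∈ P v, a ≤ b ∨ b ≤ a := fun v a ha b hb => (hc v).total ha hb
  have ub : ∀ v, ∀ a ∈ P v, ∀ b ∈ P v, ∃ c ∈ P v, a ≤ c ∧ b ≤ c := fun v a ha b hb =>
    (tot v a ha b hb).elim (fun h => ⟨b, hb, h, le_rfl⟩) fun h => ⟨a, ha, le_rfl, h⟩
  have lb : ∀ v, ∀ a ∈ P v, ∀ b ∈ P v, ∃ c ∈ P v, c ≤ a ∧ c ≤ b := fun v a ha b hb =>
    (tot v a ha b hb).elim (fun h => ⟨a, ha, le_rfl, h⟩) fun h => ⟨b, hb, h, le_rfl⟩
  refine unitMax_of_laminar (fun u => {v | ∃ a ∈ P u, ∃ b ∈ P v, a ≤ b}) ?_ ?_ ?_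
  · rintro u u' ⟨z, ⟨a, ha, b, hb, hab⟩, a', ha', b', hb', hab'⟩
    obtain ⟨c, -, h1, h2⟩ := ub z b hb b' hb'
    by_contra hn
    rw [not_or, Set.not_subset, Set.not_subset] at hn
    obtain ⟨⟨y, ⟨p, hp, q, hq, hpq⟩, hy⟩, y', ⟨p', hp', q', hq', hpq'⟩, hy'⟩ := hn
    obtain ⟨m, hm, h3, h4⟩ := lb u a ha p hp
    obtain ⟨m', hm', h5, h6⟩ := lb u' a' ha' p' hp'
    rcases hN m m' c (h3.trans (hab.trans h1)) (h5.trans (hab'.trans h2)) with h7 | h7
    · exact hy' ⟨m, hm, q', hq', h7.trans (h6.trans hpq')⟩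
    · exact hy ⟨m', hm', q, hq, h7.trans (h4.trans hpq)⟩
  · intro u
    rcases (P u).eq_empty_or_nonempty with h0 | ⟨a, ha⟩
    · refine Or.inr (Set.eq_empty_of_forall_notMem ?_)
      rintro v ⟨a, ha, -⟩
      rw [h0] at ha
      exact ha
    · exact Or.inl ⟨a, ha, a, ha, le_rfl⟩
  · intro u v huv
    rw [h u v huv]
    constructor
    · rintro ⟨a, ha, ha'⟩
      exact ⟨⟨a, ha, a, ha', le_rfl⟩, a, ha', a, ha, le_rfl⟩
    · rintro ⟨⟨a, ha, b, hb, hab⟩, a', ha', b', hb', hab'⟩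
      obtain ⟨c, hc', h1, h2⟩ := ub v b hb a' ha'
      rcases hN a a' c (hab.trans h1) h2 with h3 | h3
      · exact ⟨a', (ho u).out ha hb' ⟨h3, hab'⟩, ha'⟩
      · exact ⟨a, ha, (ho v).out ha' hb ⟨h3, hab⟩⟩

end Pool.Agent.P.MP_0f9430_co
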