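import Pool.Agent.P.MP_0f9430_co.Chk

/-! A split graph that is proper max-tolerance and not unit max-tolerance. -/

namespace Pool.Agent.P.MP_0f9430_co

/-- the vertex of the clique `{0, 1, 2, 3}` missed by the vertex `v ≥ 4` -/
def miss (v : ℕ) : ℕ := (v - 4) / 2

def spE (u v : ℕ) : Bool := decide (u < 11) && decide (v < 11) && (u != v) &&
  ((decide (u < 4) && decide (v < 4)) || (decide (u < 4) && (miss v != u)) ||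
    (decide (v < 4) && (miss u != v)))

def spF (u v : ℕ) : Bool := decide (u < 11) && decide (v < 11) && (u != v) && !spE u v

/-- `K₄` with two, two, two and one further vertices attached to its four triangles -/
def spG : SimpleGraph (Fin 11) where
  Adj u v := spE u v = true
  symm := ⟨by decide⟩
  loopless := ⟨by decide⟩

instance : DecidableRel spG.Adj := fun u v => inferInstanceAs (Decidable (spE u v = true))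

def sp0 : Ct :=
  (.node 1 7
  (.node 6 7
  (.node 4 5
  (.leaf [.e 0 7 0, .e 1 0 1, .e 1 0 1, .e 3 6 6, .e 4 2 4, .e 8 3 8, .c 1 6 1, .c 1 6 1, .c 5 0 0, .c 8 2 8, .c 6 7 6, .c 4 5 4])
  (.leaf [.e 0 7 0, .e 0 7 0, .e 1 0 1, .e 1 0 1, .e 1 0 1, .e 1 10 10, .e 1 10 10, .e 3 6 6, .e 3 6 6, .e 4 2 4, .e 5 1 1, .e 8 0 8, .c 1 6 1, .c 1 6 1, .c 1 6 1, .c 1 6 1, .c 4 0 0, .c 4 0 0, .c 3 10 10, .c 3 10 10, .c 8 2 8, .c 6 7 6, .c 6 7 6, .c 5 4 4])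
  (.leaf [.e 0 7 0, .e 0 7 0, .e 1 0 1, .e 1 0 1, .e 1 0 1, .e 1 10 10, .e 1 10 10, .e 3 6 6, .e 3 6 6, .e 4 1 1, .e 5 2 5, .e 8 0 8, .c 1 6 1, .c 1 6 1, .c 1 6 1, .c 1 6 1, .c 5 0 0, .c 5 0 0, .c 3 10 10, .c 3 10 10, .c 8 2 8, .c 6 7 6, .c 6 7 6, .c 4 5 5])
  (.leaf [.e 0 7 0, .e 1 0 1, .e 1 0 1, .e 3 6 6, .e 5 2 5, .e 8 3 8, .c 1 6 1, .c 1 6 1, .c 4 0 0, .c 8 2 8, .c 6 7 6, .c 5 4 5]))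
  (.leaf [.e 1 2 1, .e 3 6 6, .e 8 3 8, .c 8 2 8, .c 1 7 1, .c 7 6 6])
  (.leaf [.e 1 2 1, .e 3 7 7, .e 8 3 8, .c 1 6 1, .c 8 2 8, .c 6 7 7])
  (.node 4 5
  (.leaf [.e 0 6 0, .e 1 0 1, .e 1 0 1, .e 3 7 7, .e 4 2 4, .e 8 3 8, .c 5 0 0, .c 8 2 8, .c 1 7 1, .c 1 7 1, .c 7 6 7, .c 4 5 4])
  (.leaf [.e 0 6 0, .e 0 6 0, .e 1 0 1, .e 1 0 1, .e 1 0 1, .e 1 10 10, .e 1 10 10, .e 3 7 7, .e 3 7 7, .e 4 2 4, .e 5 1 1, .e 8 0 8, .c 4 0 0, .c 4 0 0, .c 3 10 10, .c 3 10 10, .c 8 2 8, .c 1 7 1, .c 1 7 1, .c 1 7 1, .c 1 7 1, .c 7 6 7, .c 7 6 7, .c 5 4 4])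
  (.leaf [.e 0 6 0, .e 0 6 0, .e 1 0 1, .e 1 0 1, .e 1 0 1, .e 1 10 10, .e 1 10 10, .e 3 7 7, .e 3 7 7, .e 4 1 1, .e 5 2 5, .e 8 0 8, .c 5 0 0, .c 5 0 0, .c 3 10 10, .c 3 10 10, .c 8 2 8, .c 1 7 1, .c 1 7 1, .c 1 7 1, .c 1 7 1, .c 7 6 7, .c 7 6 7, .c 4 5 5])
  (.leaf [.e 3 0 0, .e 5 2 5, .e 8 3 8, .c 4 0 0, .c 8 2 8, .c 5 4 5])))
  (.leaf [.e 4 1 1, .e 7 0 0, .c 4 0 0, .c 7 1 1])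
  (.leaf [.e 1 10 10, .e 3 7 7, .c 3 10 10, .c 1 7 7])
  (.leaf [.e 0 6 0, .e 5 1 1, .e 7 0 7, .e 7 0 7, .c 1 6 1, .c 5 0 0, .c 7 1 7, .c 7 1 7]))

def sp1 : Ct :=
  (.node 2 8
  (.leaf [.e 1 8 1, .e 2 6 2, .c 1 6 1, .c 2 8 2])
  (.leaf [.e 5 2 2, .e 8 0 0, .c 5 0 0, .c 8 2 2])
  (.leaf [.e 2 10 10, .e 3 8 8, .c 3 10 10, .c 2 8 8])
  sp0)

def sp2 : Ct :=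
  (.node 1 7
  (.node 4 5
  (.leaf [.e 4 3 4, .e 4 3 4, .e 10 0 10, .e 10 0 10, .c 5 0 0, .c 5 0 0, .c 10 3 10, .c 10 3 10, .c 4 5 4, .c 4 5 4, .e 0 2 0, .e 2 0 0])
  (.node 6 7
  (.leaf [.e 0 7 0, .e 0 7 0, .e 1 0 1, .e 1 0 1, .e 1 0 1, .e 1 9 9, .e 1 9 9, .e 2 6 6, .e 2 6 6, .e 4 3 4, .e 5 1 1, .e 10 0 10, .c 1 6 1, .c 1 6 1, .c 1 6 1, .c 1 6 1, .c 4 0 0, .c 4 0 0, .c 10 3 10, .c 2 9 9, .c 2 9 9, .c 5 4 4, .c 6 7 6, .c 6 7 6])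
  (.leaf [.e 1 0 1, .e 1 0 1, .e 1 9 9, .e 1 9 9, .e 2 6 6, .e 2 6 6, .e 2 6 6, .e 4 2 4, .e 5 1 1, .c 4 0 0, .c 4 0 0, .c 2 9 9, .c 2 9 9, .c 1 7 1, .c 1 7 1, .c 1 7 1, .c 5 4 4, .c 7 6 6, .c 7 6 6, .c 7 6 6, .e 0 2 0, .e 2 0 0])
  (.leaf [.e 1 0 1, .e 1 0 1, .e 1 9 9, .e 1 9 9, .e 2 7 7, .e 2 7 7, .e 2 7 7, .e 4 2 4, .e 5 1 1, .c 1 6 1, .c 1 6 1, .c 1 6 1, .c 4 0 0, .c 4 0 0, .c 2 9 9, .c 2 9 9, .c 5 4 4, .c 6 7 7, .c 6 7 7, .c 6 7 7, .e 0 2 0, .e 2 0 0])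
  (.leaf [.e 0 6 0, .e 0 6 0, .e 1 0 1, .e 1 0 1, .e 1 0 1, .e 1 9 9, .e 1 9 9, .e 2 7 7, .e 2 7 7, .e 4 3 4, .e 5 1 1, .e 10 0 10, .c 4 0 0, .c 4 0 0, .c 10 3 10, .c 2 9 9, .c 2 9 9, .c 1 7 1, .c 1 7 1, .c 1 7 1, .c 1 7 1, .c 5 4 4, .c 7 6 7, .c 7 6 7]))
  (.node 6 7
  (.leaf [.e 0 7 0, .e 0 7 0, .e 1 0 1, .e 1 0 1, .e 1 0 1, .e 1 9 9, .e 1 9 9, .e 2 6 6, .e 2 6 6, .e 4 1 1, .e 5 3 5, .e 10 0 10, .c 1 6 1, .c 1 6 1, .c 1 6 1, .c 1 6 1, .c 5 0 0, .c 5 0 0, .c 10 3 10, .c 2 9 9, .c 2 9 9, .c 4 5 5, .c 6 7 6, .c 6 7 6])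
  (.leaf [.e 1 0 1, .e 1 0 1, .e 1 9 9, .e 1 9 9, .e 2 6 6, .e 2 6 6, .e 2 6 6, .e 4 1 1, .e 5 3 5, .e 10 2 10, .c 5 0 0, .c 5 0 0, .c 10 3 10, .c 2 9 9, .c 2 9 9, .c 1 7 1, .c 1 7 1, .c 1 7 1, .c 4 5 5, .c 7 6 6, .c 7 6 6, .c 7 6 6, .e 0 2 0, .e 2 0 0])
  (.leaf [.e 1 0 1, .e 1 0 1, .e 1 9 9, .e 1 9 9, .e 2 7 7, .e 2 7 7, .e 2 7 7, .e 4 1 1, .e 5 3 5, .e 10 2 10, .c 1 6 1, .c 1 6 1, .c 1 6 1, .c 5 0 0, .c 5 0 0, .c 10 3 10, .c 2 9 9, .c 2 9 9, .c 4 5 5, .c 6 7 7, .c 6 7 7, .c 6 7 7, .e 0 2 0, .e 2 0 0])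
  (.leaf [.e 0 6 0, .e 0 6 0, .e 1 0 1, .e 1 0 1, .e 1 0 1, .e 1 9 9, .e 1 9 9, .e 2 7 7, .e 2 7 7, .e 4 1 1, .e 5 3 5, .e 10 0 10, .c 5 0 0, .c 5 0 0, .c 10 3 10, .c 2 9 9, .c 2 9 9, .c 1 7 1, .c 1 7 1, .c 1 7 1, .c 1 7 1, .c 4 5 5, .c 7 6 7, .c 7 6 7]))
  (.leaf [.e 2 0 0, .e 5 2 5, .c 4 0 0, .c 5 4 5]))
  (.leaf [.e 4 1 1, .e 7 0 0, .c 4 0 0, .c 7 1 1])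
  (.leaf [.e 1 9 9, .e 2 7 7, .c 2 9 9, .c 1 7 7])
  (.leaf [.e 0 6 0, .e 4 1 1, .e 7 0 7, .e 7 0 7, .c 1 6 1, .c 4 0 0, .c 7 1 7, .c 7 1 7]))

def sp3 : Ct :=
  (.node 2 9
  (.leaf [.e 1 9 1, .e 2 6 2, .c 1 6 1, .c 2 9 2])
  (.leaf [.e 5 2 2, .e 9 0 0, .c 5 0 0, .c 9 2 2])
  sp2
  (.leaf [.e 9 3 9, .e 10 2 10, .c 10 3 10, .c 9 2 9]))

def sp4 : Ct :=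
  (.node 3 10
  (.leaf [.e 1 10 1, .e 3 6 3, .c 1 6 1, .c 3 10 3])
  (.leaf [.e 5 3 3, .e 10 0 0, .c 5 0 0, .c 10 3 3])
  sp1
  sp3)

def sp5 : Ct :=
  (.node 0 4
  (.leaf [.e 0 6 0, .e 1 4 1, .c 1 6 1, .c 0 4 0])
  sp4
  (.leaf [.e 0 6 0, .e 1 4 4, .e 1 4 4, .e 5 1 1, .c 1 6 1, .c 5 0 0, .c 0 4 4, .c 0 4 4])
  (.node 2 8
  (.leaf [.e 1 8 1, .e 2 6 2, .c 1 6 1, .c 2 8 2])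
  (.leaf [.e 5 2 2, .e 8 0 0, .c 5 0 0, .c 8 2 2])
  (.node 3 10
  (.leaf [.e 1 10 1, .e 3 6 3, .c 1 6 1, .c 3 10 3])
  (.leaf [.e 5 3 3, .e 10 0 0, .c 5 0 0, .c 10 3 3])
  (.leaf [.e 2 10 10, .e 3 8 8, .c 2 8 8, .c 3 10 10])
  (.leaf [.e 4 3 4, .e 10 0 10, .c 4 0 4, .c 10 3 10]))
  (.leaf [.e 4 2 4, .e 8 0 8, .c 4 0 4, .c 8 2 8])))

def sp6 : Ct :=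
  (.node 5 9
  (.node 6 9
  (.leaf [.e 1 2 1, .e 1 9 1, .e 3 6 6, .e 8 3 8, .c 1 6 1, .c 1 6 1, .c 8 2 8, .c 6 9 6])
  (.leaf [.e 0 6 6, .e 0 6 6, .e 1 2 1, .e 1 5 5, .e 1 5 5, .e 3 7 3, .e 5 2 5, .e 8 3 8, .e 8 3 8, .e 10 1 1, .c 1 6 1, .c 1 6 1, .c 0 5 5, .c 0 5 5, .c 10 3 3, .c 8 2 8, .c 8 2 8, .c 6 7 6, .c 5 9 5, .c 9 6 6])
  (.leaf [.e 1 2 1, .e 3 9 9, .e 8 3 8, .c 1 6 1, .c 8 2 8, .c 6 9 9])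
  (.leaf [.e 0 6 6, .e 0 9 9, .e 1 5 5, .e 1 5 5, .e 3 7 3, .e 5 2 5, .e 5 2 5, .e 8 3 8, .e 8 3 8, .e 10 1 1, .c 1 6 1, .c 0 5 5, .c 0 5 5, .c 10 3 3, .c 8 2 8, .c 8 2 8, .c 6 7 6, .c 5 9 5, .c 5 9 5, .c 9 6 9]))
  (.node 8 9
  (.leaf [.e 1 2 1, .e 1 5 5, .e 1 5 5, .e 3 6 6, .e 3 7 3, .e 8 3 8, .e 8 3 8, .e 8 3 8, .e 10 1 1, .c 1 6 1, .c 1 6 1, .c 10 3 3, .c 8 2 8, .c 6 7 6, .c 9 5 5, .c 9 5 5, .c 8 9 8, .c 8 9 8])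
  (.node 9 10
  (.leaf [.e 1 2 1, .e 3 6 3, .e 9 3 9, .e 9 3 9, .c 1 6 1, .c 10 3 3, .c 8 2 8, .c 10 8 8, .c 9 10 9, .c 9 10 9, .e 8 0 8, .e 0 8 8])
  (.leaf [.e 0 6 6, .e 0 8 8, .e 1 5 5, .e 1 5 5, .e 1 5 5, .e 1 5 5, .e 3 7 3, .e 8 3 8, .e 9 3 9, .e 10 1 1, .e 10 1 1, .c 1 6 1, .c 1 6 1, .c 0 5 5, .c 0 5 5, .c 10 3 3, .c 6 7 6, .c 8 5 5, .c 8 5 5, .c 9 8 8, .c 9 8 8, .c 10 9 9])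
  (.leaf [.e 1 2 1, .e 1 2 1, .e 3 6 6, .e 3 7 3, .e 8 3 8, .e 8 3 8, .e 8 3 8, .e 9 3 3, .e 10 2 10, .c 1 6 1, .c 1 6 1, .c 10 3 3, .c 10 3 3, .c 8 2 8, .c 8 2 8, .c 8 2 8, .c 6 7 6, .c 9 10 10])
  (.leaf [.e 1 2 1, .e 1 5 5, .e 1 5 5, .e 3 6 6, .e 3 7 3, .e 8 3 8, .e 8 3 8, .e 8 3 8, .e 10 1 1, .e 10 2 10, .c 1 6 1, .c 1 6 1, .c 10 3 3, .c 8 2 8, .c 8 2 8, .c 6 7 6, .c 8 5 5, .c 8 5 5, .c 9 8 8, .c 10 9 10]))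
  (.leaf [.e 1 5 5, .e 1 5 5, .e 1 5 5, .e 1 5 5, .e 3 6 6, .e 3 7 3, .e 8 3 8, .e 9 3 9, .e 9 3 9, .e 10 1 1, .e 10 1 1, .c 1 6 1, .c 1 6 1, .c 10 3 3, .c 6 7 6, .c 10 8 8, .c 9 5 5, .c 9 5 5, .c 9 5 5, .c 9 5 5, .c 8 9 9, .c 8 9 9])
  (.leaf [.e 0 6 6, .e 0 8 8, .e 1 2 1, .e 1 5 5, .e 1 5 5, .e 3 7 3, .e 9 3 9, .e 9 3 9, .e 10 1 1, .c 1 6 1, .c 1 6 1, .c 0 5 5, .c 0 5 5, .c 10 3 3, .c 8 2 8, .c 6 7 6, .c 9 8 9, .c 9 8 9]))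
  (.leaf [.e 0 6 6, .e 0 9 9, .e 0 9 9, .e 1 2 1, .e 1 5 5, .e 1 5 5, .e 3 7 3, .e 5 2 5, .e 8 3 8, .e 8 3 8, .e 10 1 1, .c 1 6 1, .c 1 6 1, .c 0 5 5, .c 0 5 5, .c 0 5 5, .c 10 3 3, .c 8 2 8, .c 8 2 8, .c 6 7 6, .c 5 9 9, .c 5 9 9])
  (.node 5 6
  (.leaf [.e 0 6 6, .e 1 5 5, .e 1 5 5, .e 3 7 3, .e 9 3 9, .e 9 3 9, .e 10 1 1, .c 1 6 1, .c 0 5 5, .c 10 3 3, .c 6 7 6, .c 9 5 9, .c 9 5 9, .c 5 6 5])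
  (.leaf [.e 1 2 1, .e 3 5 5, .e 8 3 8, .c 1 6 1, .c 8 2 8, .c 6 5 5])
  (.leaf [.e 0 6 6, .e 3 6 6, .e 5 2 5, .e 8 3 8, .c 0 5 5, .c 8 2 8, .c 5 6 6, .c 5 6 6])
  (.leaf [.e 0 6 6, .e 1 2 1, .e 1 5 1, .e 3 5 5, .e 8 3 8, .c 1 6 1, .c 1 6 1, .c 0 5 5, .c 8 2 8, .c 6 5 6])))

def sp7 : Ct :=
  (.node 8 10
  (.leaf [.e 1 2 1, .e 3 6 3, .e 8 3 8, .e 8 3 8, .c 1 6 1, .c 10 3 3, .c 8 2 8, .c 8 10 8])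
  sp6
  (.leaf [.e 0 6 6, .e 1 2 1, .e 1 2 1, .e 3 7 3, .e 8 3 8, .e 8 3 8, .e 8 3 3, .e 10 0 10, .c 1 6 1, .c 1 6 1, .c 10 3 3, .c 10 3 3, .c 8 2 8, .c 8 2 8, .c 6 7 6, .c 8 10 10])
  (.leaf [.e 1 2 1, .e 1 5 5, .e 1 5 5, .e 3 6 6, .e 3 7 3, .e 8 3 8, .e 8 3 8, .e 8 3 8, .e 10 1 1, .e 10 2 10, .e 10 2 10, .c 1 6 1, .c 1 6 1, .c 10 3 3, .c 8 2 8, .c 8 2 8, .c 8 2 8, .c 6 7 6, .c 8 5 5, .c 8 5 5, .c 10 8 10, .c 10 8 10]))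

def sp8 : Ct :=
  (.node 5 8
  (.leaf [.e 0 6 6, .e 1 2 1, .e 1 8 8, .e 1 8 8, .e 3 7 3, .e 5 2 5, .e 5 3 5, .e 5 3 5, .e 10 1 1, .c 1 6 1, .c 1 6 1, .c 0 5 5, .c 10 3 3, .c 8 2 8, .c 8 2 8, .c 6 7 6, .c 5 8 5, .c 5 8 5, .c 5 8 5, .c 5 8 5, .e 5 1 5, .e 1 5 5])
  sp7
  (.leaf [.e 0 3 3, .e 0 6 6, .e 1 8 8, .e 1 8 8, .e 1 8 8, .e 1 8 8, .e 3 7 3, .e 5 3 5, .e 5 3 5, .e 10 1 1, .e 10 1 1, .c 1 6 1, .c 1 6 1, .c 0 5 5, .c 0 5 5, .c 10 3 3, .c 10 3 3, .c 6 7 6, .c 5 8 8, .c 5 8 8, .c 5 8 8, .c 5 8 8])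
  (.node 5 6
  (.leaf [.e 0 6 6, .e 1 5 5, .e 1 5 5, .e 3 7 3, .e 8 3 8, .e 8 3 8, .e 10 1 1, .c 1 6 1, .c 0 5 5, .c 10 3 3, .c 6 7 6, .c 8 5 8, .c 8 5 8, .c 5 6 5])
  (.leaf [.e 1 2 1, .e 1 2 1, .e 1 2 1, .e 1 2 1, .e 1 5 5, .e 1 5 5, .e 1 5 5, .e 1 5 5, .e 3 5 3, .e 3 5 3, .e 8 3 8, .e 8 3 8, .e 8 3 8, .e 8 3 8, .e 10 1 1, .e 10 1 1, .c 1 6 1, .c 1 6 1, .c 1 6 1, .c 1 6 1, .c 1 6 1, .c 1 6 1, .c 10 3 3, .c 10 3 3, .c 8 2 8, .c 8 2 8, .c 8 2 8, .c 8 2 8, .c 6 5 5, .c 6 5 5, .c 6 5 5, .c 6 5 5, .c 6 5 5, .c 6 5 5, .e 5 1 5, .e 1 5 5])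
  (.leaf [.e 0 6 6, .e 0 6 6, .e 0 6 6, .e 1 2 1, .e 1 5 5, .e 1 5 5, .e 3 7 3, .e 5 2 5, .e 8 3 8, .e 8 3 8, .e 10 1 1, .c 1 6 1, .c 1 6 1, .c 0 5 5, .c 0 5 5, .c 0 5 5, .c 10 3 3, .c 8 2 8, .c 8 2 8, .c 6 7 6, .c 5 6 6, .c 5 6 6])
  (.leaf [.e 0 6 6, .e 0 6 6, .e 1 2 1, .e 1 2 1, .e 1 5 1, .e 1 5 5, .e 1 5 5, .e 3 5 3, .e 8 3 8, .e 8 3 8, .e 10 1 1, .c 1 6 1, .c 1 6 1, .c 1 6 1, .c 1 6 1, .c 0 5 5, .c 0 5 5, .c 10 3 3, .c 8 2 8, .c 8 2 8, .c 6 5 6, .c 6 5 6])))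

def sp9 : Ct :=
  (.node 4 5
  (.node 5 7
  (.leaf [.e 0 7 7, .e 1 5 5, .e 1 5 5, .e 3 6 3, .e 4 2 4, .e 4 2 4, .e 8 3 8, .e 8 3 8, .e 10 1 1, .c 0 5 5, .c 10 3 3, .c 1 7 1, .c 8 2 8, .c 8 2 8, .c 7 6 7, .c 4 5 4, .c 4 5 4, .c 5 7 5])
  (.leaf [.e 1 2 1, .e 3 5 5, .e 8 3 8, .c 1 7 1, .c 8 2 8, .c 7 5 5])
  (.leaf [.e 0 7 7, .e 0 7 7, .e 1 2 1, .e 1 5 5, .e 1 5 5, .e 3 6 3, .e 4 2 4, .e 8 3 8, .e 8 3 8, .e 10 1 1, .c 0 5 5, .c 0 5 5, .c 10 3 3, .c 1 7 1, .c 1 7 1, .c 8 2 8, .c 8 2 8, .c 7 6 7, .c 4 5 4, .c 5 7 7])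
  (.leaf [.e 0 7 7, .e 1 2 1, .e 1 5 1, .e 3 5 5, .e 8 3 8, .c 0 5 5, .c 1 7 1, .c 1 7 1, .c 8 2 8, .c 7 5 7]))
  (.leaf [.e 0 7 7, .e 1 2 1, .e 1 4 4, .e 1 4 4, .e 3 6 3, .e 5 2 5, .e 8 3 8, .e 8 3 8, .e 10 1 1, .c 0 5 5, .c 10 3 3, .c 1 7 1, .c 1 7 1, .c 8 2 8, .c 8 2 8, .c 7 6 7, .c 5 4 4, .c 5 4 4])
  (.node 0 4
  (.leaf [.e 0 6 0, .e 1 2 1, .e 3 5 5, .e 8 3 8, .c 1 6 1, .c 8 2 8, .c 4 5 5, .c 0 4 0])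
  (.leaf [.e 0 2 0, .e 0 6 0, .e 0 6 0, .e 0 7 7, .e 0 7 7, .e 1 5 5, .e 1 5 5, .e 1 5 5, .e 1 5 5, .e 1 5 5, .e 1 5 5, .e 1 5 5, .e 1 5 5, .e 4 1 1, .e 4 1 1, .e 4 1 1, .e 4 1 1, .e 10 0 0, .c 0 5 5, .c 0 5 5, .c 0 5 5, .c 0 5 5, .c 0 5 5, .c 0 5 5, .c 0 5 5, .c 0 5 5, .c 1 7 1, .c 1 7 1, .c 1 7 1, .c 1 7 1, .c 8 2 8, .c 7 6 7, .c 7 6 7, .c 10 8 8, .c 4 0 0, .c 4 0 0, .c 4 0 0, .c 4 0 0, .e 8 0 8, .e 0 8 8])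
  (.leaf [.e 0 7 7, .e 1 2 1, .e 1 5 5, .e 1 5 5, .e 3 6 3, .e 4 2 4, .e 8 3 8, .e 8 3 8, .e 10 1 1, .c 10 3 3, .c 1 7 1, .c 1 7 1, .c 8 2 8, .c 8 2 8, .c 7 6 7, .c 4 5 5, .c 4 5 5, .c 0 4 4])
  (.leaf [.e 3 5 5, .e 4 2 4, .e 8 3 8, .c 0 5 5, .c 8 2 8, .c 4 0 4]))
  (.node 4 7
  (.leaf [.e 0 7 7, .e 1 4 4, .e 1 5 5, .e 3 6 3, .e 5 2 5, .e 5 2 5, .e 8 3 8, .e 8 3 8, .e 10 1 1, .c 0 5 5, .c 10 3 3, .c 1 7 1, .c 8 2 8, .c 8 2 8, .c 7 6 7, .c 5 4 5, .c 5 4 5, .c 4 7 4])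
  (.leaf [.e 0 7 7, .e 1 2 1, .e 1 2 1, .e 1 4 4, .e 1 5 5, .e 3 6 3, .e 8 3 8, .e 8 3 8, .e 10 1 1, .c 0 5 5, .c 10 3 3, .c 1 7 1, .c 1 7 1, .c 1 7 1, .c 8 2 8, .c 8 2 8, .c 7 6 7, .c 7 4 4])
  (.leaf [.e 0 7 7, .c 0 5 5, .c 5 4 5, .c 4 7 7, .e 5 1 5, .e 1 5 5])
  (.leaf [.e 0 7 7, .e 0 7 7, .e 1 2 1, .e 1 2 1, .e 1 4 1, .e 1 5 5, .e 1 5 5, .e 3 4 3, .e 8 3 8, .e 8 3 8, .e 10 1 1, .c 0 5 5, .c 0 5 5, .c 10 3 3, .c 1 7 1, .c 1 7 1, .c 1 7 1, .c 1 7 1, .c 8 2 8, .c 8 2 8, .c 7 4 7, .c 7 4 7])))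

def sp10 : Ct :=
  (.node 8 10
  (.leaf [.e 1 2 1, .e 3 6 3, .e 8 3 8, .e 8 3 8, .c 1 6 1, .c 10 3 3, .c 8 2 8, .c 8 10 8])
  sp9
  (.leaf [.e 0 7 7, .e 0 7 7, .e 1 2 1, .e 1 2 1, .e 1 2 1, .e 1 5 5, .e 1 5 5, .e 3 6 3, .e 3 6 3, .e 8 1 1, .e 8 3 8, .e 8 3 8, .e 8 3 8, .e 8 3 8, .e 10 2 10, .c 0 5 5, .c 0 5 5, .c 10 3 3, .c 10 3 3, .c 1 7 1, .c 1 7 1, .c 1 7 1, .c 1 7 1, .c 8 2 8, .c 8 2 8, .c 8 2 8, .c 8 2 8, .c 7 6 7, .c 7 6 7, .c 8 10 10])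
  (.leaf [.e 10 2 10, .e 10 2 10, .c 8 2 8, .c 8 2 8, .c 10 8 10, .c 10 8 10, .e 8 0 8, .e 0 8 8]))

def sp11 : Ct :=
  (.node 6 7
  sp8
  (.leaf [.e 0 6 6, .e 0 6 6, .e 1 2 1, .e 1 2 1, .e 1 5 5, .e 1 5 5, .e 3 6 3, .e 8 3 8, .e 8 3 8, .e 10 1 1, .c 1 6 1, .c 0 5 5, .c 0 5 5, .c 10 3 3, .c 1 7 1, .c 1 7 1, .c 8 2 8, .c 8 2 8, .c 7 6 6, .c 7 6 6])
  (.leaf [.e 0 7 7, .e 0 7 7, .e 1 2 1, .e 1 2 1, .e 1 5 5, .e 1 5 5, .e 3 6 3, .e 8 3 8, .e 8 3 8, .e 10 1 1, .c 1 6 1, .c 1 6 1, .c 1 6 1, .c 0 5 5, .c 0 5 5, .c 10 3 3, .c 8 2 8, .c 8 2 8, .c 6 7 7, .c 6 7 7])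
  sp10)

def sp12 : Ct :=
  (.node 2 8
  (.leaf [.e 1 8 1, .e 2 6 2, .c 1 6 1, .c 2 8 2])
  (.leaf [.e 8 3 3, .e 10 2 2, .c 10 3 3, .c 8 2 2])
  (.leaf [.e 0 8 8, .e 2 5 5, .c 0 5 5, .c 2 8 8])
  sp11)

def sp13 : Ct :=
  (.node 1 7
  sp12
  (.leaf [.e 7 3 3, .e 10 1 1, .c 10 3 3, .c 7 1 1])
  (.leaf [.e 0 7 7, .e 1 5 5, .c 0 5 5, .c 1 7 7])
  (.leaf [.e 3 6 3, .e 7 3 7, .e 7 3 7, .e 10 1 1, .c 1 6 1, .c 10 3 3, .c 7 1 7, .c 7 1 7]))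

def sp14 : Ct :=
  (.node 1 7
  (.node 8 9
  (.leaf [.e 0 2 2, .e 8 3 8, .e 10 0 10, .c 10 3 10, .c 9 2 2, .c 8 9 8])
  (.node 6 7
  (.leaf [.e 0 2 2, .e 0 2 2, .e 0 2 2, .e 0 6 6, .e 1 5 5, .e 1 5 5, .e 1 5 5, .e 1 5 5, .e 2 7 2, .e 8 3 8, .e 8 3 8, .e 9 1 1, .e 9 1 1, .e 10 2 10, .e 10 2 10, .c 1 6 1, .c 1 6 1, .c 0 5 5, .c 0 5 5, .c 0 5 5, .c 0 5 5, .c 10 3 10, .c 10 3 10, .c 8 2 2, .c 8 2 2, .c 8 2 2, .c 8 2 2, .c 9 8 8, .c 9 8 8, .c 6 7 6])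
  (.leaf [.e 0 6 6, .e 1 0 1, .c 1 7 1, .c 7 6 6])
  (.leaf [.e 0 7 7, .e 1 0 1, .c 1 6 1, .c 6 7 7])
  (.leaf [.e 0 2 2, .e 0 2 2, .e 0 2 2, .e 0 7 7, .e 1 5 5, .e 1 5 5, .e 1 5 5, .e 1 5 5, .e 2 6 2, .e 8 3 8, .e 8 3 8, .e 9 1 1, .e 9 1 1, .e 10 2 10, .e 10 2 10, .c 0 5 5, .c 0 5 5, .c 0 5 5, .c 0 5 5, .c 10 3 10, .c 10 3 10, .c 8 2 2, .c 8 2 2, .c 8 2 2, .c 8 2 2, .c 1 7 1, .c 1 7 1, .c 9 8 8, .c 9 8 8, .c 7 6 7]))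
  (.node 6 7
  (.leaf [.e 0 2 2, .e 0 2 2, .e 0 2 2, .e 0 6 6, .e 1 5 5, .e 1 5 5, .e 1 5 5, .e 1 5 5, .e 2 7 2, .e 8 1 1, .e 8 1 1, .e 9 3 9, .e 9 3 9, .e 10 2 10, .e 10 2 10, .c 1 6 1, .c 1 6 1, .c 0 5 5, .c 0 5 5, .c 0 5 5, .c 0 5 5, .c 10 3 10, .c 10 3 10, .c 9 2 2, .c 9 2 2, .c 9 2 2, .c 9 2 2, .c 8 9 9, .c 8 9 9, .c 6 7 6])
  (.leaf [.e 0 2 2, .e 0 2 2, .e 1 5 5, .e 1 5 5, .e 3 6 6, .e 8 1 1, .e 9 3 9, .c 0 5 5, .c 0 5 5, .c 9 2 2, .c 9 2 2, .c 1 7 1, .c 8 9 9, .c 7 6 6])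
  (.leaf [.e 0 2 2, .e 0 2 2, .e 1 5 5, .e 1 5 5, .e 3 7 7, .e 8 1 1, .e 9 3 9, .c 1 6 1, .c 0 5 5, .c 0 5 5, .c 9 2 2, .c 9 2 2, .c 8 9 9, .c 6 7 7])
  (.leaf [.e 0 2 2, .e 0 2 2, .e 0 2 2, .e 0 7 7, .e 1 5 5, .e 1 5 5, .e 1 5 5, .e 1 5 5, .e 2 6 2, .e 8 1 1, .e 8 1 1, .e 9 3 9, .e 9 3 9, .e 10 2 10, .e 10 2 10, .c 0 5 5, .c 0 5 5, .c 0 5 5, .c 0 5 5, .c 10 3 10, .c 10 3 10, .c 9 2 2, .c 9 2 2, .c 9 2 2, .c 9 2 2, .c 1 7 1, .c 1 7 1, .c 8 9 9, .c 8 9 9, .c 7 6 7]))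
  (.leaf [.e 0 2 2, .e 9 3 9, .e 10 0 10, .c 10 3 10, .c 8 2 2, .c 9 8 9]))
  (.leaf [.e 7 2 2, .e 8 1 1, .c 8 2 2, .c 7 1 1])
  (.leaf [.e 0 7 7, .e 1 5 5, .c 0 5 5, .c 1 7 7])
  (.leaf [.e 2 6 2, .e 7 3 7, .e 7 3 7, .e 8 1 1, .e 10 2 10, .e 10 2 10, .c 1 6 1, .c 10 3 10, .c 10 3 10, .c 8 2 2, .c 7 1 7, .c 7 1 7]))

def sp15 : Ct :=
  (.node 2 8
  (.leaf [.e 1 8 1, .e 2 6 2, .c 1 6 1, .c 2 8 2])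
  sp14
  (.leaf [.e 0 8 8, .e 0 8 8, .e 1 5 5, .e 1 5 5, .e 2 6 2, .e 9 1 1, .c 1 6 1, .c 0 5 5, .c 0 5 5, .c 9 2 2, .c 2 8 8, .c 2 8 8])
  (.leaf [.e 8 3 8, .e 10 2 10, .c 10 3 10, .c 8 2 8]))

def sp16 : Ct :=
  (.node 2 9
  (.leaf [.e 1 9 1, .e 2 6 2, .c 1 6 1, .c 2 9 2])
  sp15
  (.leaf [.e 0 9 9, .e 2 5 5, .c 0 5 5, .c 2 9 9])
  (.leaf [.e 9 3 9, .e 10 2 10, .c 10 3 10, .c 9 2 9]))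

def sp17 : Ct :=
  (.node 3 10
  (.leaf [.e 1 10 1, .e 3 6 3, .c 1 6 1, .c 3 10 3])
  sp13
  (.leaf [.e 0 10 10, .e 3 5 5, .c 0 5 5, .c 3 10 10])
  sp16)

def sp18 : Ct :=
  (.node 8 9
  (.node 6 9
  (.leaf [.e 1 0 1, .e 1 9 1, .e 3 6 6, .e 5 3 5, .c 1 6 1, .c 1 6 1, .c 5 0 5, .c 6 9 6])
  (.leaf [.e 3 6 6, .e 5 3 5, .e 8 0 8, .c 5 0 5, .c 8 9 8, .c 9 6 6])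
  (.leaf [.e 1 0 1, .e 3 9 9, .e 5 3 5, .c 1 6 1, .c 5 0 5, .c 6 9 9])
  (.leaf [.e 1 9 9, .e 1 9 9, .e 2 6 6, .e 3 7 3, .e 5 3 5, .e 5 3 5, .e 8 0 8, .e 8 0 8, .e 10 1 1, .c 1 6 1, .c 5 0 5, .c 5 0 5, .c 10 3 3, .c 2 9 9, .c 6 7 6, .c 8 9 8, .c 8 9 8, .c 9 6 9]))
  (.leaf [.e 1 0 1, .e 1 8 8, .e 1 8 8, .e 2 6 6, .e 3 7 3, .e 5 3 5, .e 5 3 5, .e 9 0 9, .e 10 1 1, .c 1 6 1, .c 1 6 1, .c 5 0 5, .c 5 0 5, .c 10 3 3, .c 2 9 9, .c 6 7 6, .c 9 8 8, .c 9 8 8])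
  (.node 2 8
  (.leaf [.e 1 0 1, .e 1 0 1, .e 1 0 1, .e 1 0 1, .e 2 6 6, .e 2 6 6, .e 2 7 2, .e 2 7 2, .e 3 9 9, .e 3 9 9, .e 3 9 9, .e 5 3 5, .e 5 3 5, .e 5 3 5, .e 10 2 2, .c 1 6 1, .c 1 6 1, .c 1 6 1, .c 1 6 1, .c 5 0 5, .c 5 0 5, .c 5 0 5, .c 5 0 5, .c 10 5 5, .c 6 7 6, .c 6 7 6, .c 8 9 9, .c 8 9 9, .c 8 9 9, .c 2 8 2, .c 2 8 2, .c 2 8 2, .e 5 1 5, .e 1 5 5])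
  (.leaf [.e 1 0 1, .e 1 9 9, .e 1 9 9, .e 2 6 6, .e 2 7 2, .e 5 2 5, .e 8 1 1, .c 1 6 1, .c 1 6 1, .c 5 0 5, .c 2 9 9, .c 2 9 9, .c 6 7 6, .c 8 2 2])
  (.leaf [.e 1 0 1, .e 1 9 9, .e 1 9 9, .e 2 6 6, .e 3 7 3, .e 5 3 5, .e 5 3 5, .e 8 0 8, .e 10 1 1, .c 1 6 1, .c 1 6 1, .c 5 0 5, .c 5 0 5, .c 10 3 3, .c 6 7 6, .c 8 9 9, .c 8 9 9, .c 2 8 8])
  (.leaf [.e 1 0 1, .e 1 9 9, .e 1 9 9, .e 3 6 6, .e 3 7 3, .e 5 2 5, .e 8 3 8, .e 8 3 8, .e 8 3 8, .e 10 1 1, .c 1 6 1, .c 1 6 1, .c 5 0 5, .c 10 3 3, .c 2 9 9, .c 2 9 9, .c 6 7 6, .c 8 2 8, .c 8 2 8, .c 8 2 8]))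
  (.node 6 8
  (.leaf [.e 1 0 1, .e 1 8 1, .e 3 6 6, .e 5 3 5, .c 1 6 1, .c 1 6 1, .c 5 0 5, .c 6 8 6])
  (.leaf [.e 3 6 6, .e 5 3 5, .e 9 0 9, .c 5 0 5, .c 9 8 9, .c 8 6 6])
  (.leaf [.e 1 0 1, .e 3 8 8, .e 5 3 5, .c 1 6 1, .c 5 0 5, .c 6 8 8])
  (.leaf [.e 1 8 8, .e 1 9 9, .e 2 6 6, .e 3 7 3, .e 5 3 5, .e 5 3 5, .e 9 0 9, .e 9 0 9, .e 10 1 1, .c 1 6 1, .c 5 0 5, .c 5 0 5, .c 10 3 3, .c 2 9 9, .c 6 7 6, .c 9 8 9, .c 9 8 9, .c 8 6 8])))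

def sp19 : Ct :=
  (.node 8 9
  (.node 7 9
  (.leaf [.e 1 0 1, .e 1 9 1, .e 2 7 7, .e 3 9 9, .e 5 3 5, .c 5 0 5, .c 2 9 9, .c 1 7 1, .c 1 7 1, .c 7 9 7])
  (.leaf [.e 3 7 7, .e 5 3 5, .e 8 0 8, .c 5 0 5, .c 8 9 8, .c 9 7 7])
  (.leaf [.e 1 0 1, .e 1 0 1, .e 1 9 9, .e 1 9 9, .e 2 7 7, .e 3 6 3, .e 5 3 5, .e 5 3 5, .e 10 1 1, .c 5 0 5, .c 5 0 5, .c 10 3 3, .c 2 9 9, .c 1 7 1, .c 1 7 1, .c 1 7 1, .c 7 6 7, .c 7 9 9])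
  (.leaf [.e 1 9 9, .e 1 9 9, .e 2 7 7, .e 3 6 3, .e 5 3 5, .e 5 3 5, .e 8 0 8, .e 8 0 8, .e 10 1 1, .c 5 0 5, .c 5 0 5, .c 10 3 3, .c 2 9 9, .c 1 7 1, .c 7 6 7, .c 8 9 8, .c 8 9 8, .c 9 7 9]))
  (.leaf [.e 1 0 1, .e 1 8 8, .e 1 8 8, .e 2 7 7, .e 3 6 3, .e 5 3 5, .e 5 3 5, .e 9 0 9, .e 10 1 1, .c 5 0 5, .c 5 0 5, .c 10 3 3, .c 2 9 9, .c 1 7 1, .c 1 7 1, .c 7 6 7, .c 9 8 8, .c 9 8 8])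
  (.node 2 8
  (.leaf [.e 1 0 1, .e 2 6 2, .e 3 9 9, .e 5 3 5, .c 1 6 1, .c 5 0 5, .c 8 9 9, .c 2 8 2])
  (.leaf [.e 8 3 3, .e 10 2 2, .c 10 3 3, .c 8 2 2])
  (.leaf [.e 1 0 1, .e 1 9 9, .e 1 9 9, .e 2 7 7, .e 3 6 3, .e 5 3 5, .e 5 3 5, .e 8 0 8, .e 10 1 1, .c 5 0 5, .c 5 0 5, .c 10 3 3, .c 1 7 1, .c 1 7 1, .c 7 6 7, .c 8 9 9, .c 8 9 9, .c 2 8 8])
  (.leaf [.e 1 9 9, .e 1 9 9, .e 3 6 3, .e 8 3 8, .e 8 3 8, .e 10 1 1, .c 1 6 1, .c 10 3 3, .c 2 9 9, .c 2 9 9, .c 8 2 8, .c 8 2 8]))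
  (.node 7 8
  (.leaf [.e 1 8 1, .e 1 8 1, .e 2 7 7, .c 2 9 9, .c 1 7 1, .c 1 7 1, .c 9 8 9, .c 7 8 7, .e 9 1 9, .e 1 9 9])
  (.leaf [.e 3 7 7, .e 5 3 5, .e 9 0 9, .c 5 0 5, .c 9 8 9, .c 8 7 7])
  (.leaf [.e 1 0 1, .e 1 0 1, .e 1 8 1, .e 1 8 8, .e 1 8 8, .e 2 7 7, .e 3 6 3, .e 5 3 5, .e 5 3 5, .e 10 1 1, .c 5 0 5, .c 5 0 5, .c 10 3 3, .c 2 9 9, .c 1 7 1, .c 1 7 1, .c 1 7 1, .c 1 7 1, .c 7 6 7, .c 9 8 9, .c 7 8 8, .c 7 8 8, .e 9 1 9, .e 1 9 9])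
  (.leaf [.e 1 8 8, .e 1 9 9, .e 2 7 7, .e 3 6 3, .e 5 3 5, .e 5 3 5, .e 9 0 9, .e 9 0 9, .e 10 1 1, .c 5 0 5, .c 5 0 5, .c 10 3 3, .c 2 9 9, .c 1 7 1, .c 7 6 7, .c 9 8 9, .c 9 8 9, .c 8 7 8])))

def sp20 : Ct :=
  (.node 6 7
  sp18
  (.leaf [.e 1 0 1, .e 3 6 6, .e 5 3 5, .c 5 0 5, .c 1 7 1, .c 7 6 6])
  (.leaf [.e 1 0 1, .e 3 7 7, .e 5 3 5, .c 1 6 1, .c 5 0 5, .c 6 7 7])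
  sp19)

def sp21 : Ct :=
  (.node 5 10
  (.leaf [.e 2 3 3, .e 5 2 5, .c 10 3 3, .c 5 10 5])
  sp20
  (.leaf [.e 2 3 3, .e 5 2 5, .e 5 3 3, .e 10 0 10, .c 5 0 5, .c 10 3 3, .c 10 3 3, .c 5 10 10])
  (.leaf [.e 10 0 10, .e 10 0 10, .c 5 0 5, .c 5 0 5, .c 10 5 10, .c 10 5 10, .e 5 1 5, .e 1 5 5]))

def sp22 : Ct :=
  (.node 1 7
  sp21
  (.leaf [.e 7 3 3, .e 10 1 1, .c 10 3 3, .c 7 1 1])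
  (.leaf [.e 1 9 9, .e 2 7 7, .c 2 9 9, .c 1 7 7])
  (.leaf [.e 3 6 3, .e 5 3 5, .e 5 3 5, .e 7 0 7, .e 7 0 7, .e 10 1 1, .c 1 6 1, .c 5 0 5, .c 5 0 5, .c 10 3 3, .c 7 1 7, .c 7 1 7]))

def sp23 : Ct :=
  (.node 2 9
  (.leaf [.e 1 9 1, .e 2 6 2, .c 1 6 1, .c 2 9 2])
  (.leaf [.e 9 3 3, .e 10 2 2, .c 10 3 3, .c 9 2 2])
  sp22
  (.leaf [.e 5 2 5, .e 9 0 9, .c 5 0 5, .c 9 2 9]))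

def sp24 : Ct :=
  (.node 2 9
  (.leaf [.e 1 9 1, .e 2 6 2, .c 1 6 1, .c 2 9 2])
  (.node 8 9
  (.leaf [.e 5 2 5, .e 5 2 5, .e 8 0 8, .e 8 0 8, .c 5 0 5, .c 5 0 5, .c 9 2 2, .c 9 2 2, .c 8 9 8, .c 8 9 8, .e 2 5 2, .e 5 2 2])
  (.node 6 7
  (.leaf [.e 1 0 1, .e 1 0 1, .e 1 0 1, .e 1 10 10, .e 1 10 10, .e 2 7 2, .e 2 7 2, .e 3 6 6, .e 3 6 6, .e 5 2 5, .e 5 2 5, .e 5 2 5, .e 5 2 5, .e 8 0 8, .e 9 1 1, .c 1 6 1, .c 1 6 1, .c 1 6 1, .c 1 6 1, .c 5 0 5, .c 5 0 5, .c 5 0 5, .c 5 0 5, .c 3 10 10, .c 3 10 10, .c 8 2 2, .c 8 2 2, .c 9 8 8, .c 6 7 6, .c 6 7 6])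
  (.leaf [.e 1 0 1, .e 1 0 1, .e 1 10 10, .e 1 10 10, .e 3 6 6, .e 3 6 6, .e 3 6 6, .e 5 2 5, .e 5 2 5, .e 8 3 8, .e 9 1 1, .c 5 0 5, .c 5 0 5, .c 3 10 10, .c 3 10 10, .c 8 2 2, .c 8 2 2, .c 1 7 1, .c 1 7 1, .c 1 7 1, .c 9 8 8, .c 7 6 6, .c 7 6 6, .c 7 6 6, .e 2 5 2, .e 5 2 2])
  (.leaf [.e 1 0 1, .e 1 0 1, .e 1 10 10, .e 1 10 10, .e 3 7 7, .e 3 7 7, .e 3 7 7, .e 5 2 5, .e 5 2 5, .e 8 3 8, .e 9 1 1, .c 1 6 1, .c 1 6 1, .c 1 6 1, .c 5 0 5, .c 5 0 5, .c 3 10 10, .c 3 10 10, .c 8 2 2, .c 8 2 2, .c 9 8 8, .c 6 7 7, .c 6 7 7, .c 6 7 7, .e 2 5 2, .e 5 2 2])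
  (.leaf [.e 1 0 1, .e 1 0 1, .e 1 0 1, .e 1 10 10, .e 1 10 10, .e 2 6 2, .e 2 6 2, .e 3 7 7, .e 3 7 7, .e 5 2 5, .e 5 2 5, .e 5 2 5, .e 5 2 5, .e 8 0 8, .e 9 1 1, .c 5 0 5, .c 5 0 5, .c 5 0 5, .c 5 0 5, .c 3 10 10, .c 3 10 10, .c 8 2 2, .c 8 2 2, .c 1 7 1, .c 1 7 1, .c 1 7 1, .c 1 7 1, .c 9 8 8, .c 7 6 7, .c 7 6 7]))
  (.node 6 7
  (.leaf [.e 1 0 1, .e 1 0 1, .e 1 0 1, .e 1 10 10, .e 1 10 10, .e 2 7 2, .e 2 7 2, .e 3 6 6, .e 3 6 6, .e 5 2 5, .e 5 2 5, .e 5 2 5, .e 5 2 5, .e 8 1 1, .e 9 0 9, .c 1 6 1, .c 1 6 1, .c 1 6 1, .c 1 6 1, .c 5 0 5, .c 5 0 5, .c 5 0 5, .c 5 0 5, .c 3 10 10, .c 3 10 10, .c 9 2 2, .c 9 2 2, .c 8 9 9, .c 6 7 6, .c 6 7 6])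
  (.leaf [.e 1 0 1, .e 1 0 1, .e 1 10 10, .e 1 10 10, .e 3 6 6, .e 3 6 6, .e 3 6 6, .e 5 2 5, .e 5 2 5, .e 8 1 1, .e 9 3 9, .c 5 0 5, .c 5 0 5, .c 3 10 10, .c 3 10 10, .c 1 7 1, .c 1 7 1, .c 1 7 1, .c 9 2 2, .c 9 2 2, .c 8 9 9, .c 7 6 6, .c 7 6 6, .c 7 6 6, .e 2 5 2, .e 5 2 2])
  (.leaf [.e 1 0 1, .e 1 0 1, .e 1 10 10, .e 1 10 10, .e 3 7 7, .e 3 7 7, .e 3 7 7, .e 5 2 5, .e 5 2 5, .e 8 1 1, .e 9 3 9, .c 1 6 1, .c 1 6 1, .c 1 6 1, .c 5 0 5, .c 5 0 5, .c 3 10 10, .c 3 10 10, .c 9 2 2, .c 9 2 2, .c 8 9 9, .c 6 7 7, .c 6 7 7, .c 6 7 7, .e 2 5 2, .e 5 2 2])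
  (.leaf [.e 1 0 1, .e 1 0 1, .e 1 0 1, .e 1 10 10, .e 1 10 10, .e 2 6 2, .e 2 6 2, .e 3 7 7, .e 3 7 7, .e 5 2 5, .e 5 2 5, .e 5 2 5, .e 5 2 5, .e 8 1 1, .e 9 0 9, .c 5 0 5, .c 5 0 5, .c 5 0 5, .c 5 0 5, .c 3 10 10, .c 3 10 10, .c 1 7 1, .c 1 7 1, .c 1 7 1, .c 1 7 1, .c 9 2 2, .c 9 2 2, .c 8 9 9, .c 7 6 7, .c 7 6 7]))
  (.leaf [.e 5 2 5, .e 5 2 5, .e 9 0 9, .e 9 0 9, .c 5 0 5, .c 5 0 5, .c 8 2 2, .c 8 2 2, .c 9 8 9, .c 9 8 9, .e 2 5 2, .e 5 2 2]))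
  (.leaf [.e 1 9 9, .e 1 9 9, .e 2 6 2, .e 8 1 1, .c 1 6 1, .c 8 2 2, .c 2 9 9, .c 2 9 9])
  (.leaf [.e 5 2 5, .e 9 0 9, .c 5 0 5, .c 9 2 9]))

def sp25 : Ct :=
  (.node 1 7
  sp24
  (.leaf [.e 7 2 2, .e 8 1 1, .c 8 2 2, .c 7 1 1])
  (.leaf [.e 1 10 10, .e 3 7 7, .c 3 10 10, .c 1 7 7])
  (.leaf [.e 2 6 2, .e 5 2 5, .e 5 2 5, .e 7 0 7, .e 7 0 7, .e 8 1 1, .c 1 6 1, .c 5 0 5, .c 5 0 5, .c 8 2 2, .c 7 1 7, .c 7 1 7]))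

def sp26 : Ct :=
  (.node 2 8
  (.leaf [.e 1 8 1, .e 2 6 2, .c 1 6 1, .c 2 8 2])
  sp25
  (.leaf [.e 2 10 10, .e 3 8 8, .c 3 10 10, .c 2 8 8])
  (.leaf [.e 5 2 5, .e 8 0 8, .c 5 0 5, .c 8 2 8]))

def sp27 : Ct :=
  (.node 3 10
  (.leaf [.e 1 10 1, .e 3 6 3, .c 1 6 1, .c 3 10 3])
  sp23
  sp26
  (.leaf [.e 5 3 5, .e 10 0 10, .c 5 0 5, .c 10 3 10]))

def sp28 : Ct :=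
  (.node 0 5
  (.leaf [.e 0 6 0, .e 1 5 1, .c 1 6 1, .c 0 5 0])
  sp5
  sp17
  sp27)

def sp29 : Ct :=
  (.node 5 6
  (.node 6 8
  (.leaf [.e 1 8 8, .e 2 6 6, .e 2 6 6, .e 3 9 3, .e 5 3 5, .e 5 3 5, .e 10 2 2, .c 1 6 6, .c 10 3 3, .c 2 8 2, .c 8 9 8, .c 5 6 5, .c 5 6 5, .c 6 8 6])
  (.leaf [.e 2 0 2, .e 2 6 6, .e 2 6 6, .e 10 2 2, .c 4 0 4, .c 2 8 2, .c 2 8 2, .c 10 4 4, .c 8 6 6, .c 8 6 6, .e 4 3 4, .e 3 4 4])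
  (.leaf [.e 1 8 8, .e 1 8 8, .e 1 8 8, .e 1 8 8, .e 1 8 8, .e 1 8 8, .e 2 0 2, .e 2 6 6, .e 2 6 6, .e 2 6 6, .e 2 6 6, .e 2 6 6, .e 2 6 6, .e 3 9 3, .e 3 9 3, .e 5 3 5, .e 5 3 5, .e 5 3 5, .e 5 3 5, .e 10 2 2, .e 10 2 2, .e 10 2 2, .c 1 6 6, .c 1 6 6, .c 1 6 6, .c 1 6 6, .c 1 6 6, .c 1 6 6, .c 10 3 3, .c 10 3 3, .c 4 0 4, .c 2 8 2, .c 2 8 2, .c 2 8 2, .c 2 8 2, .c 8 9 8, .c 8 9 8, .c 10 4 4, .c 5 6 5, .c 5 6 5, .c 5 6 5, .c 5 6 5, .c 6 8 8, .c 6 8 8, .c 6 8 8, .c 6 8 8, .e 4 3 4, .e 3 4 4])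
  (.leaf [.e 1 8 8, .e 1 8 8, .e 2 0 2, .e 2 6 2, .e 2 6 2, .e 2 6 6, .e 2 6 6, .e 10 2 2, .c 1 6 6, .c 1 6 6, .c 4 0 4, .c 2 8 2, .c 2 8 2, .c 2 8 2, .c 2 8 2, .c 10 4 4, .c 8 6 8, .c 8 6 8, .e 4 3 4, .e 3 4 4]))
  (.leaf [.e 1 5 5, .e 1 5 5, .c 1 6 6, .c 1 6 6, .c 6 5 5, .c 6 5 5, .e 6 2 6, .e 2 6 6])
  (.node 4 5
  (.leaf [.e 1 8 8, .e 2 0 2, .e 2 6 6, .e 2 6 6, .e 3 9 3, .e 4 3 4, .e 4 3 4, .e 10 2 2, .c 1 6 6, .c 10 3 3, .c 4 0 4, .c 2 8 2, .c 2 8 2, .c 8 9 8, .c 5 6 6, .c 4 5 4])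
  (.node 5 10
  (.leaf [.e 1 8 8, .e 2 0 2, .e 2 0 2, .e 2 6 6, .e 3 9 3, .e 5 2 5, .e 5 3 5, .e 5 3 5, .c 1 6 6, .c 10 3 3, .c 4 0 4, .c 4 0 4, .c 2 8 2, .c 2 8 2, .c 8 9 8, .c 10 4 4, .c 10 4 4, .c 5 10 5, .c 5 10 5, .c 5 10 5, .e 4 3 4, .e 4 3 4, .e 3 4 4, .e 3 4 4])
  (.leaf [.e 1 4 4, .e 1 8 8, .e 2 6 6, .e 2 6 6, .e 2 6 6, .e 2 6 6, .e 3 9 3, .e 4 3 4, .e 5 3 5, .e 10 2 2, .e 10 2 2, .c 1 6 6, .c 1 6 6, .c 10 3 3, .c 2 8 2, .c 2 8 2, .c 8 9 8, .c 4 6 6, .c 4 6 6, .c 5 4 4, .c 5 4 4, .c 10 5 5])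
  (.leaf [.e 5 3 3, .e 10 0 10, .c 10 3 3, .c 4 0 4, .c 10 4 4, .c 5 10 10, .e 4 3 4, .e 3 4 4])
  (.leaf [.e 10 0 10, .c 4 0 4, .c 5 4 4, .c 10 5 10, .e 4 3 4, .e 3 4 4]))
  (.leaf [.e 1 5 5, .e 1 8 8, .e 2 6 6, .e 2 6 6, .e 2 6 6, .e 2 6 6, .e 3 9 3, .e 4 3 4, .e 5 3 5, .e 10 2 2, .e 10 2 2, .c 1 6 6, .c 1 6 6, .c 10 3 3, .c 2 8 2, .c 2 8 2, .c 8 9 8, .c 10 4 4, .c 5 6 6, .c 5 6 6, .c 4 5 5, .c 4 5 5])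
  (.leaf [.e 1 4 4, .e 1 8 8, .e 2 0 2, .e 2 6 6, .e 2 6 6, .e 3 9 3, .e 5 3 5, .e 5 3 5, .e 10 2 2, .c 1 6 6, .c 1 6 6, .c 10 3 3, .c 4 0 4, .c 2 8 2, .c 2 8 2, .c 8 9 8, .c 5 4 5, .c 5 4 5]))
  (.node 5 8
  (.leaf [.e 1 5 5, .e 1 8 8, .e 2 6 6, .e 2 6 6, .e 3 9 3, .e 4 3 4, .e 4 3 4, .e 6 0 6, .e 6 0 6, .e 10 2 2, .c 1 6 6, .c 1 6 6, .c 10 3 3, .c 4 0 4, .c 4 0 4, .c 2 8 2, .c 8 9 8, .c 6 5 6, .c 6 5 6, .c 5 8 5])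
  (.leaf [.e 1 5 5, .e 2 5 2, .c 1 6 6, .c 2 8 2, .c 6 5 6, .c 8 5 5, .e 6 2 6, .e 2 6 6])
  (.leaf [.e 1 8 8, .c 1 6 6, .c 6 5 6, .c 5 8 8, .e 6 2 6, .e 2 6 6])
  (.leaf [.e 1 8 8, .e 2 5 2, .e 2 5 2, .c 1 6 6, .c 2 8 2, .c 2 8 2, .c 6 5 6, .c 8 5 8, .e 6 2 6, .e 2 6 6])))

def sp30 : Ct :=
  (.node 4 10
  (.leaf [.e 1 3 3, .e 2 6 6, .e 4 2 4, .c 1 6 6, .c 10 3 3, .c 4 10 4])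
  sp29
  (.leaf [.e 1 3 3, .e 1 3 3, .e 1 3 3, .e 1 8 8, .e 2 6 6, .e 2 6 6, .e 2 6 6, .e 2 6 6, .e 3 9 3, .e 4 2 2, .e 4 2 2, .e 4 3 4, .e 4 3 4, .e 10 0 10, .e 10 0 10, .c 1 6 6, .c 1 6 6, .c 1 6 6, .c 1 6 6, .c 10 3 3, .c 10 3 3, .c 10 3 3, .c 10 3 3, .c 4 0 4, .c 4 0 4, .c 2 8 2, .c 2 8 2, .c 8 9 8, .c 4 10 10, .c 4 10 10])
  (.leaf [.e 10 0 10, .e 10 0 10, .c 4 0 4, .c 4 0 4, .c 10 4 10, .c 10 4 10, .e 4 3 4, .e 3 4 4]))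

def sp31 : Ct :=
  (.node 4 6
  (.node 6 8
  (.leaf [.e 1 8 8, .e 2 6 6, .e 2 6 6, .e 3 9 3, .e 4 3 4, .e 4 3 4, .e 10 2 2, .c 1 6 6, .c 10 3 3, .c 2 8 2, .c 8 9 8, .c 4 6 4, .c 4 6 4, .c 6 8 6])
  (.leaf [.e 1 3 3, .e 2 6 6, .e 2 6 6, .e 10 2 2, .c 1 6 6, .c 10 3 3, .c 2 8 2, .c 8 6 6])
  (.leaf [.e 1 3 3, .e 1 8 8, .e 1 8 8, .e 1 8 8, .e 2 6 6, .e 2 6 6, .e 2 6 6, .e 2 6 6, .e 3 9 3, .e 4 3 4, .e 4 3 4, .e 10 2 2, .e 10 2 2, .c 1 6 6, .c 1 6 6, .c 1 6 6, .c 1 6 6, .c 10 3 3, .c 10 3 3, .c 2 8 2, .c 2 8 2, .c 8 9 8, .c 4 6 4, .c 4 6 4, .c 6 8 8, .c 6 8 8])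
  (.leaf [.e 1 3 3, .e 1 8 8, .e 2 6 2, .e 2 6 6, .e 2 6 6, .e 10 2 2, .c 1 6 6, .c 1 6 6, .c 10 3 3, .c 2 8 2, .c 2 8 2, .c 8 6 8]))
  (.leaf [.e 1 4 4, .e 1 8 8, .e 2 0 2, .e 2 4 4, .e 2 4 4, .e 3 9 3, .e 6 3 6, .e 6 3 6, .e 10 2 2, .c 1 6 6, .c 1 6 6, .c 10 3 3, .c 4 0 4, .c 2 8 2, .c 2 8 2, .c 8 9 8, .c 6 4 4, .c 6 4 4, .c 6 4 4, .c 6 4 4, .e 4 3 4, .e 3 4 4])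
  sp30
  (.leaf [.e 1 8 8, .e 2 0 2, .e 2 4 4, .e 2 4 4, .e 3 9 3, .e 6 0 6, .e 6 3 6, .e 6 3 6, .e 10 2 2, .c 1 6 6, .c 10 3 3, .c 4 0 4, .c 4 0 4, .c 2 8 2, .c 2 8 2, .c 8 9 8, .c 6 4 6, .c 6 4 6, .c 6 4 6, .c 6 4 6, .e 6 2 6, .e 2 6 6]))

def sp32 : Ct :=
  (.node 4 5
  (.node 0 5
  (.leaf [.e 1 0 0, .e 1 9 9, .e 2 5 2, .e 2 6 6, .e 2 6 6, .e 3 8 3, .e 4 3 4, .e 4 3 4, .e 10 2 2, .c 1 6 6, .c 1 6 6, .c 2 9 2, .c 2 9 2, .c 10 3 3, .c 4 0 4, .c 4 0 4, .c 9 8 9, .c 0 5 0])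
  (.leaf [.e 10 0 0, .c 10 4 4, .c 4 5 4, .c 5 0 0, .e 4 3 4, .e 3 4 4])
  (.leaf [.e 2 5 5, .e 2 5 5, .e 2 5 5, .e 2 5 5, .e 3 8 3, .e 3 8 3, .e 4 3 4, .e 4 3 4, .e 4 3 4, .e 4 3 4, .e 10 2 2, .e 10 2 2, .c 2 9 2, .c 2 9 2, .c 10 3 3, .c 10 3 3, .c 4 0 4, .c 4 0 4, .c 4 0 4, .c 4 0 4, .c 9 8 9, .c 9 8 9, .c 0 5 5, .c 0 5 5, .c 0 5 5, .c 0 5 5, .e 9 1 9, .e 1 9 9])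
  (.leaf [.e 1 5 5, .e 1 9 9, .e 2 0 2, .e 2 6 6, .e 2 6 6, .e 3 8 3, .e 4 3 4, .e 4 3 4, .e 10 2 2, .c 1 6 6, .c 1 6 6, .c 2 9 2, .c 2 9 2, .c 10 3 3, .c 9 8 9, .c 4 5 4, .c 4 5 4, .c 5 0 5]))
  (.node 5 10
  (.leaf [.e 1 9 9, .e 2 0 2, .e 2 0 2, .e 2 6 6, .e 3 8 3, .e 5 2 5, .e 5 3 5, .e 5 3 5, .c 1 6 6, .c 2 9 2, .c 2 9 2, .c 10 3 3, .c 4 0 4, .c 4 0 4, .c 9 8 9, .c 10 4 4, .c 10 4 4, .c 5 10 5, .c 5 10 5, .c 5 10 5, .e 4 3 4, .e 4 3 4, .e 3 4 4, .e 3 4 4])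
  (.leaf [.e 1 4 4, .e 1 9 9, .e 2 6 6, .e 2 6 6, .e 2 6 6, .e 2 6 6, .e 3 8 3, .e 4 3 4, .e 5 3 5, .e 10 2 2, .e 10 2 2, .c 1 6 6, .c 1 6 6, .c 2 9 2, .c 2 9 2, .c 10 3 3, .c 9 8 9, .c 4 6 6, .c 4 6 6, .c 5 4 4, .c 5 4 4, .c 10 5 5])
  (.leaf [.e 5 3 3, .e 10 0 10, .c 10 3 3, .c 4 0 4, .c 10 4 4, .c 5 10 10, .e 4 3 4, .e 3 4 4])
  (.leaf [.e 10 0 10, .c 4 0 4, .c 5 4 4, .c 10 5 10, .e 4 3 4, .e 3 4 4]))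
  (.node 5 6
  (.node 6 9
  (.leaf [.e 1 9 9, .e 2 6 6, .e 2 6 6, .e 3 8 3, .e 5 3 5, .e 5 3 5, .e 10 2 2, .c 1 6 6, .c 2 9 2, .c 10 3 3, .c 9 8 9, .c 5 6 5, .c 5 6 5, .c 6 9 6])
  (.leaf [.e 2 0 2, .e 2 6 6, .e 2 6 6, .e 10 2 2, .c 2 9 2, .c 2 9 2, .c 4 0 4, .c 10 4 4, .c 9 6 6, .c 9 6 6, .e 4 3 4, .e 3 4 4])
  (.leaf [.e 1 9 9, .e 1 9 9, .e 1 9 9, .e 1 9 9, .e 1 9 9, .e 1 9 9, .e 2 0 2, .e 2 6 6, .e 2 6 6, .e 2 6 6, .e 2 6 6, .e 2 6 6, .e 2 6 6, .e 3 8 3, .e 3 8 3, .e 5 3 5, .e 5 3 5, .e 5 3 5, .e 5 3 5, .e 10 2 2, .e 10 2 2, .e 10 2 2, .c 1 6 6, .c 1 6 6, .c 1 6 6, .c 1 6 6, .c 1 6 6, .c 1 6 6, .c 2 9 2, .c 2 9 2, .c 2 9 2, .c 2 9 2, .c 10 3 3, .c 10 3 3, .c 4 0 4, .c 9 8 9, .c 9 8 9, .c 10 4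 4, .c 5 6 5, .c 5 6 5, .c 5 6 5, .c 5 6 5, .c 6 9 9, .c 6 9 9, .c 6 9 9, .c 6 9 9, .e 4 3 4, .e 3 4 4])
  (.leaf [.e 1 9 9, .e 1 9 9, .e 2 0 2, .e 2 6 2, .e 2 6 2, .e 2 6 6, .e 2 6 6, .e 10 2 2, .c 1 6 6, .c 1 6 6, .c 2 9 2, .c 2 9 2, .c 2 9 2, .c 2 9 2, .c 4 0 4, .c 10 4 4, .c 9 6 9, .c 9 6 9, .e 4 3 4, .e 3 4 4]))
  (.leaf [.e 1 5 5, .e 1 5 5, .c 1 6 6, .c 1 6 6, .c 6 5 5, .c 6 5 5, .e 6 2 6, .e 2 6 6])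
  (.leaf [.e 1 5 5, .e 1 9 9, .e 2 6 6, .e 2 6 6, .e 2 6 6, .e 2 6 6, .e 3 8 3, .e 4 3 4, .e 5 3 5, .e 10 2 2, .e 10 2 2, .c 1 6 6, .c 1 6 6, .c 2 9 2, .c 2 9 2, .c 10 3 3, .c 9 8 9, .c 10 4 4, .c 4 5 5, .c 4 5 5, .c 5 6 6, .c 5 6 6])
  (.node 5 9
  (.leaf [.e 1 5 5, .e 1 9 9, .e 2 6 6, .e 2 6 6, .e 3 8 3, .e 6 3 6, .e 6 3 6, .e 10 2 2, .c 1 6 6, .c 1 6 6, .c 2 9 2, .c 10 3 3, .c 9 8 9, .c 6 5 6, .c 6 5 6, .c 5 9 5])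
  (.leaf [.e 1 5 5, .e 2 5 2, .c 1 6 6, .c 2 9 2, .c 6 5 6, .c 9 5 5, .e 6 2 6, .e 2 6 6])
  (.leaf [.e 1 9 9, .c 1 6 6, .c 6 5 6, .c 5 9 9, .e 6 2 6, .e 2 6 6])
  (.leaf [.e 1 9 9, .e 2 5 2, .e 2 5 2, .c 1 6 6, .c 2 9 2, .c 2 9 2, .c 6 5 6, .c 9 5 9, .e 6 2 6, .e 2 6 6])))
  (.leaf [.e 1 4 4, .e 1 9 9, .e 2 0 2, .e 2 6 6, .e 2 6 6, .e 3 8 3, .e 5 3 5, .e 5 3 5, .e 10 2 2, .c 1 6 6, .c 1 6 6, .c 2 9 2, .c 2 9 2, .c 10 3 3, .c 4 0 4, .c 9 8 9, .c 5 4 5, .c 5 4 5]))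

def sp33 : Ct :=
  (.node 4 10
  (.leaf [.e 1 3 3, .e 2 6 6, .e 4 2 4, .c 1 6 6, .c 10 3 3, .c 4 10 4])
  sp32
  (.leaf [.e 1 3 3, .e 1 3 3, .e 1 3 3, .e 1 9 9, .e 2 6 6, .e 2 6 6, .e 2 6 6, .e 2 6 6, .e 3 8 3, .e 4 2 2, .e 4 2 2, .e 4 3 4, .e 4 3 4, .e 10 0 10, .e 10 0 10, .c 1 6 6, .c 1 6 6, .c 1 6 6, .c 1 6 6, .c 2 9 2, .c 2 9 2, .c 10 3 3, .c 10 3 3, .c 10 3 3, .c 10 3 3, .c 4 0 4, .c 4 0 4, .c 9 8 9, .c 4 10 10, .c 4 10 10])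
  (.leaf [.e 10 0 10, .e 10 0 10, .c 4 0 4, .c 4 0 4, .c 10 4 10, .c 10 4 10, .e 4 3 4, .e 3 4 4]))

def sp34 : Ct :=
  (.node 4 6
  (.node 6 9
  (.leaf [.e 1 9 9, .e 2 6 6, .e 2 6 6, .e 3 8 3, .e 4 3 4, .e 4 3 4, .e 10 2 2, .c 1 6 6, .c 2 9 2, .c 10 3 3, .c 9 8 9, .c 4 6 4, .c 4 6 4, .c 6 9 6])
  (.leaf [.e 1 3 3, .e 2 6 6, .e 2 6 6, .e 10 2 2, .c 1 6 6, .c 2 9 2, .c 10 3 3, .c 9 6 6])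
  (.leaf [.e 1 3 3, .e 1 9 9, .e 1 9 9, .e 1 9 9, .e 2 6 6, .e 2 6 6, .e 2 6 6, .e 2 6 6, .e 3 8 3, .e 4 3 4, .e 4 3 4, .e 10 2 2, .e 10 2 2, .c 1 6 6, .c 1 6 6, .c 1 6 6, .c 1 6 6, .c 2 9 2, .c 2 9 2, .c 10 3 3, .c 10 3 3, .c 9 8 9, .c 4 6 4, .c 4 6 4, .c 6 9 9, .c 6 9 9])
  (.leaf [.e 1 3 3, .e 1 9 9, .e 2 6 2, .e 2 6 6, .e 2 6 6, .e 10 2 2, .c 1 6 6, .c 1 6 6, .c 2 9 2, .c 2 9 2, .c 10 3 3, .c 9 6 9]))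
  (.leaf [.e 1 4 4, .e 1 9 9, .e 2 0 2, .e 2 4 4, .e 2 4 4, .e 3 8 3, .e 6 3 6, .e 6 3 6, .e 10 2 2, .c 1 6 6, .c 1 6 6, .c 2 9 2, .c 2 9 2, .c 10 3 3, .c 4 0 4, .c 9 8 9, .c 6 4 4, .c 6 4 4, .c 6 4 4, .c 6 4 4, .e 4 3 4, .e 3 4 4])
  sp33
  (.leaf [.e 1 9 9, .e 2 0 2, .e 2 4 4, .e 2 4 4, .e 3 8 3, .e 6 0 6, .e 6 3 6, .e 6 3 6, .e 10 2 2, .c 1 6 6, .c 2 9 2, .c 2 9 2, .c 10 3 3, .c 4 0 4, .c 4 0 4, .c 9 8 9, .c 6 4 6, .c 6 4 6, .c 6 4 6, .c 6 4 6, .e 6 2 6, .e 2 6 6]))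

def sp35 : Ct :=
  (.node 8 9
  sp31
  (.leaf [.e 1 3 3, .e 1 8 8, .e 2 6 6, .e 2 6 6, .e 10 2 2, .c 1 6 6, .c 1 6 6, .c 2 9 2, .c 10 3 3, .c 9 8 8])
  (.leaf [.e 1 3 3, .e 1 9 9, .e 2 6 6, .e 2 6 6, .e 10 2 2, .c 1 6 6, .c 1 6 6, .c 10 3 3, .c 2 8 2, .c 8 9 9])
  sp34)

def sp36 : Ct :=
  (.node 2 8
  sp35
  (.leaf [.e 8 3 3, .e 10 2 2, .c 10 3 3, .c 8 2 2])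
  (.leaf [.e 1 8 8, .e 2 6 6, .c 1 6 6, .c 2 8 8])
  (.leaf [.e 4 2 4, .e 8 0 8, .c 4 0 4, .c 8 2 8]))

def sp37 : Ct :=
  (.node 0 4
  (.leaf [.e 0 9 0, .e 2 4 2, .c 2 9 2, .c 0 4 0])
  (.leaf [.e 4 3 3, .e 10 0 0, .c 10 3 3, .c 4 0 0])
  (.leaf [.e 0 6 6, .e 1 4 4, .c 1 6 6, .c 0 4 4])
  sp36)

def sp38 : Ct :=
  (.node 6 10
  (.leaf [.e 1 10 10, .e 6 3 6, .c 1 6 6, .c 10 3 10, .c 6 10 6, .c 6 10 6, .e 6 2 6, .e 2 6 6])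
  (.node 5 10
  (.leaf [.e 1 10 10, .e 2 6 6, .e 5 2 5, .e 5 3 5, .c 1 6 6, .c 10 3 10, .c 5 10 5, .c 5 10 5])
  (.leaf [.e 1 0 0, .e 2 6 6, .e 5 3 5, .e 10 0 0, .e 10 2 10, .c 1 6 6, .c 10 3 10, .c 5 0 0, .c 5 0 0, .c 10 5 5])
  (.node 4 5
  (.leaf [.e 1 0 0, .e 2 6 6, .e 4 2 4, .c 1 6 6, .c 5 0 0, .c 4 5 4])
  (.node 4 10
  (.leaf [.e 4 3 4, .e 4 3 4, .c 10 3 10, .c 10 3 10, .c 4 10 4, .c 4 10 4, .e 10 0 10, .e 0 10 10])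
  (.leaf [.e 0 8 0, .e 1 0 0, .e 1 0 0, .e 1 0 0, .e 2 6 6, .e 2 6 6, .e 2 6 6, .e 4 3 4, .e 4 3 4, .e 5 2 2, .e 10 0 10, .e 10 0 10, .e 10 2 10, .c 1 6 6, .c 1 6 6, .c 1 6 6, .c 10 3 10, .c 10 3 10, .c 2 8 2, .c 4 0 0, .c 4 0 0, .c 4 0 0, .c 4 0 0, .c 5 10 10, .c 10 4 4, .c 10 4 4])
  (.leaf [.e 0 8 0, .e 2 6 6, .e 2 6 6, .e 4 3 4, .e 5 2 2, .e 10 0 10, .e 10 0 10, .c 10 3 10, .c 2 8 2, .c 4 0 0, .c 10 6 6, .c 10 6 6, .c 5 4 4, .c 4 10 10])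
  (.leaf [.e 0 8 0, .e 1 0 0, .e 1 0 0, .e 2 6 6, .e 2 6 6, .e 4 3 4, .e 5 2 2, .e 10 0 10, .e 10 0 10, .c 1 6 6, .c 1 6 6, .c 10 3 10, .c 2 8 2, .c 4 0 0, .c 4 0 0, .c 4 0 0, .c 5 4 4, .c 10 4 10]))
  (.leaf [.e 0 8 0, .e 2 6 6, .e 2 6 6, .e 4 2 2, .e 5 3 5, .e 10 0 10, .e 10 0 10, .c 10 3 10, .c 5 0 0, .c 2 8 2, .c 10 6 6, .c 10 6 6, .c 5 10 10, .c 4 5 5])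
  (.leaf [.e 1 0 0, .e 2 6 6, .e 5 2 5, .c 1 6 6, .c 4 0 0, .c 5 4 5]))
  (.leaf [.e 1 0 0, .e 2 6 6, .e 10 2 10, .c 1 6 6, .c 5 0 0, .c 10 5 10]))
  (.leaf [.e 1 10 10, .e 1 10 10, .c 1 6 6, .c 1 6 6, .c 6 10 10, .c 6 10 10, .e 6 2 6, .e 2 6 6])
  (.node 6 9
  (.node 8 9
  (.node 6 8
  (.leaf [.e 0 9 0, .e 1 8 8, .e 2 6 6, .e 2 6 6, .e 5 2 2, .e 10 0 10, .e 10 0 10, .c 1 6 6, .c 5 0 0, .c 2 8 2, .c 10 6 10, .c 10 6 10, .c 8 9 8, .c 6 8 6])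
  (.leaf [.e 1 0 0, .e 2 6 6, .e 2 6 6, .e 5 2 2, .c 1 6 6, .c 5 0 0, .c 2 8 2, .c 8 6 6])
  (.leaf [.e 0 9 0, .e 1 0 0, .e 1 8 8, .e 1 8 8, .e 1 8 8, .e 1 8 8, .e 1 8 8, .e 2 6 6, .e 2 6 6, .e 2 6 6, .e 2 6 6, .e 5 2 2, .e 5 2 2, .e 6 0 6, .e 6 0 6, .c 1 6 6, .c 1 6 6, .c 1 6 6, .c 1 6 6, .c 1 6 6, .c 1 6 6, .c 5 0 0, .c 5 0 0, .c 2 8 2, .c 2 8 2, .c 8 9 8, .c 6 8 8, .c 6 8 8, .c 6 8 8, .c 6 8 8])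
  (.leaf [.e 0 9 0, .e 1 0 0, .e 1 8 8, .e 1 8 8, .e 2 3 2, .e 2 3 2, .e 2 6 6, .e 2 6 6, .e 2 6 6, .e 2 6 6, .e 5 2 2, .e 5 2 2, .e 10 0 10, .e 10 0 10, .c 1 6 6, .c 1 6 6, .c 1 6 6, .c 10 3 10, .c 10 3 10, .c 5 0 0, .c 5 0 0, .c 2 8 2, .c 2 8 2, .c 2 8 2, .c 2 8 2, .c 6 9 6, .c 8 6 8, .c 8 6 8]))
  (.leaf [.e 1 0 0, .e 1 8 8, .e 2 6 6, .e 2 6 6, .e 5 2 2, .c 1 6 6, .c 1 6 6, .c 2 9 2, .c 5 0 0, .c 9 8 8])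
  (.leaf [.e 1 0 0, .e 1 9 9, .e 2 6 6, .e 2 6 6, .e 5 2 2, .c 1 6 6, .c 1 6 6, .c 5 0 0, .c 2 8 2, .c 8 9 9])
  (.leaf [.e 0 8 0, .e 1 9 9, .e 2 6 6, .e 2 6 6, .e 5 2 2, .e 10 0 10, .e 10 0 10, .c 1 6 6, .c 2 9 2, .c 5 0 0, .c 10 6 10, .c 10 6 10, .c 6 9 6, .c 9 8 9]))
  (.leaf [.e 1 0 0, .e 2 6 6, .e 2 6 6, .e 5 2 2, .c 1 6 6, .c 2 9 2, .c 5 0 0, .c 9 6 6])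
  (.leaf [.e 1 9 9, .e 1 9 9, .c 1 6 6, .c 1 6 6, .c 6 9 9, .c 6 9 9, .e 6 2 6, .e 2 6 6])
  (.leaf [.e 1 0 0, .e 1 9 9, .e 2 6 2, .e 2 6 6, .e 2 6 6, .e 5 2 2, .c 1 6 6, .c 1 6 6, .c 2 9 2, .c 2 9 2, .c 5 0 0, .c 9 6 9])))

def sp39 : Ct :=
  (.node 0 4
  (.leaf [.e 0 8 0, .e 2 4 2, .c 2 8 2, .c 0 4 0])
  sp38
  (.leaf [.e 0 8 0, .e 2 4 4, .e 2 4 4, .e 5 2 2, .c 5 0 0, .c 2 8 2, .c 0 4 4, .c 0 4 4])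
  (.leaf [.e 4 3 4, .e 10 0 10, .c 10 3 10, .c 4 0 4]))

def sp40 : Ct :=
  (.node 2 8
  sp39
  (.leaf [.e 5 2 2, .e 8 0 0, .c 5 0 0, .c 8 2 2])
  (.leaf [.e 1 8 8, .e 2 6 6, .c 1 6 6, .c 2 8 8])
  (.leaf [.e 0 9 0, .e 5 2 2, .e 8 3 8, .e 8 3 8, .e 10 0 10, .e 10 0 10, .c 2 9 2, .c 10 3 10, .c 10 3 10, .c 5 0 0, .c 8 2 8, .c 8 2 8]))

def sp41 : Ct :=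
  (.node 0 5
  (.leaf [.e 0 9 0, .e 2 5 2, .c 2 9 2, .c 0 5 0])
  sp40
  (.leaf [.e 0 6 6, .e 1 5 5, .c 1 6 6, .c 0 5 5])
  (.leaf [.e 5 3 5, .e 10 0 10, .c 10 3 10, .c 5 0 5]))

def sp42 : Ct :=
  (.node 3 10
  (.leaf [.e 2 10 2, .e 3 9 3, .c 2 9 2, .c 3 10 3])
  sp37
  (.leaf [.e 1 10 10, .e 3 6 6, .c 1 6 6, .c 3 10 10])
  sp41)

def sp43 : Ct :=
  (.node 0 5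
  (.node 4 5
  (.node 8 9
  (.leaf [.e 1 2 2, .e 3 6 6, .e 8 3 8, .c 1 6 6, .c 9 2 2, .c 8 9 8])
  (.leaf [.e 0 6 6, .e 0 6 6, .e 0 6 6, .e 0 6 6, .e 1 2 2, .e 1 2 2, .e 1 2 2, .e 1 4 4, .e 2 5 2, .e 8 3 8, .e 8 3 8, .e 9 0 0, .e 9 0 0, .e 10 2 10, .e 10 2 10, .c 1 6 6, .c 1 6 6, .c 1 6 6, .c 1 6 6, .c 0 4 0, .c 0 4 0, .c 10 3 10, .c 10 3 10, .c 8 2 2, .c 8 2 2, .c 8 2 2, .c 8 2 2, .c 4 5 4, .c 9 8 8, .c 9 8 8])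
  (.leaf [.e 0 6 6, .e 0 6 6, .e 0 6 6, .e 0 6 6, .e 1 2 2, .e 1 2 2, .e 1 2 2, .e 1 4 4, .e 2 5 2, .e 8 0 0, .e 8 0 0, .e 9 3 9, .e 9 3 9, .e 10 2 10, .e 10 2 10, .c 1 6 6, .c 1 6 6, .c 1 6 6, .c 1 6 6, .c 9 2 2, .c 9 2 2, .c 9 2 2, .c 9 2 2, .c 0 4 0, .c 0 4 0, .c 10 3 10, .c 10 3 10, .c 4 5 4, .c 8 9 9, .c 8 9 9])
  (.leaf [.e 1 2 2, .e 3 6 6, .e 9 3 9, .c 1 6 6, .c 8 2 2, .c 9 8 9]))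
  (.leaf [.e 0 6 6, .e 0 6 6, .e 1 2 2, .e 1 4 4, .e 8 0 0, .c 1 6 6, .c 1 6 6, .c 8 2 2, .c 0 5 0, .c 5 4 4])
  (.leaf [.e 0 6 6, .e 0 6 6, .e 1 2 2, .e 1 5 5, .e 8 0 0, .c 1 6 6, .c 1 6 6, .c 0 4 0, .c 8 2 2, .c 4 5 5])
  (.node 8 9
  (.leaf [.e 0 2 0, .e 0 2 0, .e 2 4 2, .e 3 5 5, .e 8 3 8, .c 9 2 2, .c 0 5 0, .c 0 5 0, .c 5 4 5, .c 8 9 8])
  (.leaf [.e 0 6 6, .e 0 6 6, .e 0 6 6, .e 0 6 6, .e 1 2 2, .e 1 2 2, .e 1 2 2, .e 1 5 5, .e 2 4 2, .e 8 3 8, .e 8 3 8, .e 9 0 0, .e 9 0 0, .e 10 2 10, .e 10 2 10, .c 1 6 6, .c 1 6 6, .c 1 6 6, .c 1 6 6, .c 10 3 10, .c 10 3 10, .c 8 2 2, .c 8 2 2, .c 8 2 2, .c 8 2 2, .c 0 5 0, .c 0 5 0, .c 5 4 5, .c 9 8 8, .c 9 8 8])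
  (.leaf [.e 0 6 6, .e 0 6 6, .e 0 6 6, .e 0 6 6, .e 1 2 2, .e 1 2 2, .e 1 2 2, .e 1 5 5, .e 2 4 2, .e 8 0 0, .e 8 0 0, .e 9 3 9, .e 9 3 9, .e 10 2 10, .e 10 2 10, .c 1 6 6, .c 1 6 6, .c 1 6 6, .c 1 6 6, .c 9 2 2, .c 9 2 2, .c 9 2 2, .c 9 2 2, .c 10 3 10, .c 10 3 10, .c 0 5 0, .c 0 5 0, .c 5 4 5, .c 8 9 9, .c 8 9 9])
  (.leaf [.e 0 2 0, .e 0 2 0, .e 2 4 2, .e 3 5 5, .e 9 3 9, .c 8 2 2, .c 0 5 0, .c 0 5 0, .c 5 4 5, .c 9 8 9])))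
  (.leaf [.e 5 2 2, .e 8 0 0, .c 8 2 2, .c 5 0 0])
  (.leaf [.e 0 6 6, .e 1 5 5, .c 1 6 6, .c 0 5 5])
  (.leaf [.e 2 4 2, .e 5 2 5, .e 5 2 5, .e 8 0 0, .c 0 4 0, .c 8 2 2, .c 5 0 5, .c 5 0 5]))

def sp44 : Ct :=
  (.node 2 8
  (.leaf [.e 0 8 0, .e 2 4 2, .c 0 4 0, .c 2 8 2])
  sp43
  (.leaf [.e 0 6 6, .e 0 6 6, .e 1 8 8, .e 1 8 8, .e 2 4 2, .e 9 0 0, .c 1 6 6, .c 1 6 6, .c 9 2 2, .c 0 4 0, .c 2 8 8, .c 2 8 8])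
  (.leaf [.e 8 3 8, .e 10 2 10, .c 10 3 10, .c 8 2 8]))

def sp45 : Ct :=
  (.node 3 10
  (.leaf [.e 0 10 0, .e 3 4 3, .c 0 4 0, .c 3 10 3])
  (.leaf [.e 9 3 3, .e 10 2 2, .c 9 2 2, .c 10 3 3])
  (.leaf [.e 1 10 10, .e 3 6 6, .c 1 6 6, .c 3 10 10])
  sp44)

def sp46 : Ct :=
  (.node 4 7
  (.node 6 7
  (.node 7 10
  (.leaf [.e 2 10 2, .e 2 10 2, .e 3 6 6, .e 3 7 7, .e 4 2 4, .e 4 2 4, .e 4 2 4, .e 4 2 4, .e 6 0 6, .e 8 0 8, .e 9 3 3, .c 4 0 4, .c 4 0 4, .c 3 10 3, .c 8 2 2, .c 8 2 2, .c 4 6 4, .c 4 6 4, .c 9 8 8, .c 6 7 6, .c 6 7 6, .c 7 10 7])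
  (.leaf [.e 1 2 2, .e 1 2 2, .e 1 2 2, .e 1 2 2, .e 1 2 2, .e 1 2 2, .e 2 7 2, .e 2 7 2, .e 3 6 6, .e 3 6 6, .e 3 6 6, .e 3 6 6, .e 3 6 6, .e 3 6 6, .e 3 7 7, .e 3 7 7, .e 4 2 4, .e 4 2 4, .e 4 2 4, .e 4 2 4, .e 8 0 8, .e 8 0 8, .e 8 0 8, .e 8 0 8, .e 9 3 3, .e 9 3 3, .e 9 3 3, .e 9 3 3, .c 1 6 6, .c 1 6 6, .c 1 6 6, .c 1 6 6, .c 1 6 6, .c 1 6 6, .c 4 0 4, .c 4 0 4, .c 4 0 4, .c 4 0 4, .c 3 10 3, .c 3 10 3, .c 3 10 3, .c 3 10 3, .c 8 2 2, .c 8 2 2, .c 8 2 2, .c 8 2 2, .c 8 2 2, .c 8 2 2, .c 8 2 2, .c 8 2 2, .c 9 8 8, .c 9 8 8, .c 9 8 8, .c 9 8 8, .c 10 7 7, .c 10 7 7, .c 10 7 7, .c 10 7 7, .e 7 0 7, .e 0 7 7])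
  (.leaf [.e 1 10 10, .e 1 10 10, .e 1 10 10, .e 1 10 10, .e 2 10 2, .e 2 10 2, .e 3 6 6, .e 3 6 6, .e 3 6 6, .e 3 6 6, .e 4 2 4, .e 4 2 4, .e 4 2 4, .e 4 2 4, .e 4 2 4, .e 4 2 4, .e 8 0 8, .e 8 0 8, .e 9 3 3, .e 9 3 3, .c 1 6 6, .c 1 6 6, .c 1 6 6, .c 1 6 6, .c 4 0 4, .c 4 0 4, .c 3 10 3, .c 3 10 3, .c 8 2 2, .c 8 2 2, .c 8 2 2, .c 8 2 2, .c 9 8 8, .c 9 8 8, .c 4 7 4, .c 4 7 4, .c 4 7 4, .c 4 7 4, .c 7 10 10, .c 7 10 10, .c 7 10 10, .c 7 10 10, .e 2 5 2, .e 5 2 2])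
  (.leaf [.e 1 2 2, .e 1 2 2, .e 1 2 2, .e 1 10 10, .e 2 7 2, .e 3 6 6, .e 3 6 6, .e 3 6 6, .e 3 6 6, .e 4 2 4, .e 4 2 4, .e 8 0 8, .e 8 0 8, .e 9 3 3, .e 9 3 3, .c 1 6 6, .c 1 6 6, .c 1 6 6, .c 1 6 6, .c 4 0 4, .c 4 0 4, .c 3 10 3, .c 3 10 3, .c 8 2 2, .c 8 2 2, .c 8 2 2, .c 8 2 2, .c 9 8 8, .c 9 8 8, .c 10 7 10]))
  (.leaf [.e 2 10 2, .e 2 10 2, .e 3 6 6, .e 3 6 6, .e 3 6 6, .e 3 6 6, .e 4 2 4, .e 4 2 4, .e 4 2 4, .e 4 2 4, .e 4 2 4, .e 4 2 4, .e 8 0 8, .e 8 0 8, .e 9 3 3, .e 9 3 3, .c 4 0 4, .c 4 0 4, .c 3 10 3, .c 3 10 3, .c 8 2 2, .c 8 2 2, .c 8 2 2, .c 8 2 2, .c 9 8 8, .c 9 8 8, .c 4 7 4, .c 4 7 4, .c 4 7 4, .c 4 7 4, .c 7 6 6, .c 7 6 6, .c 7 6 6, .c 7 6 6, .e 2 5 2, .e 5 2 2])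
  (.leaf [.e 1 2 2, .e 2 10 2, .e 3 7 7, .e 3 7 7, .e 4 2 4, .e 4 2 4, .e 6 0 6, .e 8 0 8, .e 9 3 3, .c 1 6 6, .c 4 0 4, .c 4 0 4, .c 3 10 3, .c 8 2 2, .c 8 2 2, .c 9 8 8, .c 6 7 7, .c 6 7 7])
  (.leaf [.e 2 10 2, .e 2 10 2, .e 3 6 6, .e 3 7 7, .e 4 2 4, .e 4 2 4, .e 4 2 4, .e 4 2 4, .e 7 0 7, .e 8 0 8, .e 9 3 3, .c 4 0 4, .c 4 0 4, .c 3 10 3, .c 8 2 2, .c 8 2 2, .c 6 10 6, .c 9 8 8, .c 4 7 4, .c 4 7 4, .c 7 6 7, .c 7 6 7]))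
  (.node 7 8
  (.leaf [.e 7 0 7, .e 7 2 2, .c 4 0 4, .c 8 2 2, .c 7 4 4, .c 7 8 7, .e 4 3 4, .e 3 4 4])
  (.leaf [.e 1 4 4, .e 1 4 4, .e 2 10 2, .e 3 6 6, .e 3 6 6, .e 4 2 4, .e 7 2 7, .e 8 0 8, .e 9 3 3, .c 1 6 6, .c 1 6 6, .c 4 0 4, .c 3 10 3, .c 8 2 2, .c 9 8 8, .c 7 4 4, .c 7 4 4, .c 8 7 7])
  (.leaf [.e 7 2 2, .e 7 2 2, .e 8 0 8, .c 4 0 4, .c 8 2 2, .c 8 2 2, .c 7 4 4, .c 7 8 8, .e 4 3 4, .e 3 4 4])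
  (.leaf [.e 8 0 8, .c 4 0 4, .c 7 4 4, .c 8 7 8, .e 4 3 4, .e 3 4 4]))
  (.node 4 8
  (.leaf [.e 1 2 2, .e 1 2 2, .e 2 10 2, .e 3 6 6, .e 3 6 6, .e 4 2 4, .e 4 2 4, .e 8 0 8, .e 9 3 3, .c 1 6 6, .c 1 6 6, .c 4 0 4, .c 3 10 3, .c 8 2 2, .c 8 2 2, .c 8 2 2, .c 9 8 8, .c 4 8 4])
  (.leaf [.e 2 10 2, .e 3 7 7, .e 3 7 7, .e 4 2 4, .e 4 2 4, .e 8 0 8, .e 9 3 3, .c 4 0 4, .c 3 10 3, .c 8 2 2, .c 9 8 8, .c 4 7 7, .c 4 7 7, .c 8 4 4])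
  (.leaf [.e 4 2 4, .e 4 2 4, .e 4 2 2, .e 4 2 2, .e 8 0 8, .e 8 0 8, .c 4 0 4, .c 4 0 4, .c 8 2 2, .c 8 2 2, .c 8 2 2, .c 8 2 2, .c 4 8 8, .c 4 8 8, .e 2 5 2, .e 5 2 2])
  (.leaf [.e 8 0 8, .e 8 0 8, .c 4 0 4, .c 4 0 4, .c 8 4 8, .c 8 4 8, .e 4 3 4, .e 3 4 4]))
  (.leaf [.e 7 0 7, .e 7 0 7, .c 4 0 4, .c 4 0 4, .c 7 4 7, .c 7 4 7, .e 4 3 4, .e 3 4 4]))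

def sp47 : Ct :=
  (.node 4 5
  (.node 0 5
  (.leaf [.e 2 10 2, .e 2 10 2, .e 3 5 3, .e 3 5 3, .e 4 2 4, .e 4 2 4, .e 4 2 4, .e 4 2 4, .e 8 0 0, .e 8 0 0, .c 9 2 2, .c 9 2 2, .c 4 0 4, .c 4 0 4, .c 4 0 4, .c 4 0 4, .c 3 10 3, .c 3 10 3, .c 8 9 9, .c 8 9 9, .c 0 5 0, .c 0 5 0, .e 9 1 9, .e 1 9 9])
  (.leaf [.e 4 2 4, .e 4 2 4, .e 8 0 0, .e 8 0 0, .c 9 2 2, .c 9 2 2, .c 8 9 9, .c 8 9 9, .c 4 5 4, .c 4 5 4, .c 5 0 0, .c 5 0 0, .e 2 5 2, .e 5 2 2, .e 9 1 9, .e 1 9 9])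
  (.leaf [.e 1 5 5, .e 1 5 5, .e 2 10 2, .e 2 10 2, .e 3 5 5, .e 3 5 5, .e 3 5 5, .e 3 5 5, .e 4 2 4, .e 4 2 4, .e 4 2 4, .e 4 2 4, .e 4 2 4, .e 4 2 4, .e 8 3 3, .e 8 3 3, .e 9 1 9, .e 9 1 9, .c 9 2 2, .c 9 2 2, .c 9 2 2, .c 9 2 2, .c 4 0 4, .c 4 0 4, .c 4 0 4, .c 4 0 4, .c 4 0 4, .c 4 0 4, .c 3 10 3, .c 3 10 3, .c 8 9 9, .c 8 9 9, .c 0 5 5, .c 0 5 5, .c 0 5 5, .c 0 5 5, .c 0 5 5, .c 0 5 5, .e 2 5 2, .e 5 2 2])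
  (.leaf [.e 1 2 2, .e 2 10 2, .e 3 5 5, .e 3 6 6, .e 4 2 4, .e 4 2 4, .e 8 3 3, .e 9 0 9, .c 1 6 6, .c 9 2 2, .c 9 2 2, .c 3 10 3, .c 8 9 9, .c 4 5 4, .c 4 5 4, .c 5 0 5]))
  (.node 5 9
  (.leaf [.e 1 4 4, .e 1 4 4, .e 2 10 2, .e 3 6 6, .e 3 6 6, .e 5 2 5, .e 5 2 5, .e 5 2 2, .e 5 2 2, .e 5 2 2, .e 8 3 3, .e 9 0 9, .c 1 6 6, .c 1 6 6, .c 9 2 2, .c 9 2 2, .c 9 2 2, .c 9 2 2, .c 4 0 4, .c 3 10 3, .c 8 9 9, .c 5 4 4, .c 5 4 4, .c 5 4 4, .c 5 9 5, .c 5 9 5, .e 4 3 4, .e 3 4 4])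
  (.leaf [.e 1 4 4, .e 1 4 4, .e 2 10 2, .e 3 6 6, .e 3 6 6, .e 4 2 4, .e 5 2 5, .e 8 3 3, .e 9 0 9, .c 1 6 6, .c 1 6 6, .c 9 2 2, .c 4 0 4, .c 3 10 3, .c 8 9 9, .c 5 4 4, .c 5 4 4, .c 9 5 5])
  (.leaf [.e 5 2 2, .e 5 2 2, .e 9 0 9, .c 9 2 2, .c 9 2 2, .c 4 0 4, .c 5 4 4, .c 5 9 9, .e 4 3 4, .e 3 4 4])
  (.leaf [.e 9 0 9, .c 4 0 4, .c 5 4 4, .c 9 5 9, .e 4 3 4, .e 3 4 4]))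
  (.node 4 9
  (.leaf [.e 1 2 2, .e 1 2 2, .e 2 10 2, .e 3 6 6, .e 3 6 6, .e 4 2 4, .e 4 2 4, .e 8 3 3, .e 9 0 9, .c 1 6 6, .c 1 6 6, .c 9 2 2, .c 9 2 2, .c 9 2 2, .c 4 0 4, .c 3 10 3, .c 8 9 9, .c 4 9 4])
  (.leaf [.e 2 10 2, .e 3 5 5, .e 3 5 5, .e 4 2 4, .e 4 2 4, .e 8 3 3, .e 9 0 9, .c 9 2 2, .c 4 0 4, .c 3 10 3, .c 8 9 9, .c 4 5 5, .c 4 5 5, .c 9 4 4])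
  (.leaf [.e 4 2 4, .e 4 2 4, .e 4 2 2, .e 4 2 2, .e 9 0 9, .e 9 0 9, .c 9 2 2, .c 9 2 2, .c 9 2 2, .c 9 2 2, .c 4 0 4, .c 4 0 4, .c 4 9 9, .c 4 9 9, .e 2 5 2, .e 5 2 2])
  (.leaf [.e 9 0 9, .e 9 0 9, .c 4 0 4, .c 4 0 4, .c 9 4 9, .c 9 4 9, .e 4 3 4, .e 3 4 4]))
  (.leaf [.e 1 4 4, .e 1 4 4, .e 2 10 2, .e 2 10 2, .e 3 0 3, .e 3 6 6, .e 3 6 6, .e 5 2 5, .e 5 2 5, .e 5 2 5, .e 5 2 5, .e 8 3 3, .e 9 0 9, .c 1 6 6, .c 1 6 6, .c 9 2 2, .c 9 2 2, .c 4 0 4, .c 4 0 4, .c 3 10 3, .c 3 10 3, .c 8 9 9, .c 5 4 5, .c 5 4 5, .c 5 4 5, .c 5 4 5]))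

def sp48 : Ct :=
  (.node 8 9
  (.leaf [.e 4 2 4, .e 4 2 4, .e 8 0 8, .e 8 0 8, .c 9 2 2, .c 9 2 2, .c 4 0 4, .c 4 0 4, .c 8 9 8, .c 8 9 8, .e 2 5 2, .e 5 2 2])
  sp46
  sp47
  (.leaf [.e 4 2 4, .e 4 2 4, .e 9 0 9, .e 9 0 9, .c 4 0 4, .c 4 0 4, .c 8 2 2, .c 8 2 2, .c 9 8 9, .c 9 8 9, .e 2 5 2, .e 5 2 2]))

def sp49 : Ct :=
  (.node 6 10
  sp48
  (.leaf [.e 2 10 2, .e 3 0 3, .e 3 0 3, .e 3 6 6, .e 3 6 6, .e 4 2 4, .e 4 2 4, .e 9 3 3, .c 9 2 2, .c 4 0 4, .c 4 0 4, .c 3 10 3, .c 3 10 3, .c 3 10 3, .c 10 6 6, .c 10 6 6])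
  (.leaf [.e 1 10 10, .e 1 10 10, .e 1 10 10, .e 1 10 10, .e 2 10 2, .e 3 6 6, .e 3 6 6, .e 4 2 4, .e 4 2 4, .e 6 0 6, .e 6 0 6, .e 9 3 3, .c 1 6 6, .c 1 6 6, .c 1 6 6, .c 1 6 6, .c 9 2 2, .c 4 0 4, .c 4 0 4, .c 3 10 3, .c 6 10 10, .c 6 10 10, .c 6 10 10, .c 6 10 10])
  (.leaf [.e 1 10 10, .e 1 10 10, .e 2 6 2, .e 3 0 3, .e 3 0 3, .e 3 6 3, .e 3 6 6, .e 3 6 6, .e 4 2 4, .e 4 2 4, .e 9 3 3, .c 1 6 6, .c 1 6 6, .c 9 2 2, .c 4 0 4, .c 4 0 4, .c 3 10 3, .c 3 10 3, .c 3 10 3, .c 3 10 3, .c 10 6 10, .c 10 6 10]))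

def sp50 : Ct :=
  (.node 4 6
  sp49
  (.leaf [.e 1 4 4, .e 1 4 4, .c 1 6 6, .c 1 6 6, .c 6 4 4, .c 6 4 4, .e 6 2 6, .e 2 6 6])
  (.node 4 9
  (.leaf [.e 4 2 4, .e 4 2 4, .c 9 2 2, .c 9 2 2, .c 4 9 4, .c 4 9 4, .e 2 5 2, .e 5 2 2])
  (.node 8 9
  (.leaf [.e 8 0 8, .c 4 0 4, .c 9 4 4, .c 8 9 8, .e 4 3 4, .e 3 4 4])
  (.node 4 8
  (.leaf [.e 1 2 2, .e 1 2 2, .e 2 10 2, .e 3 6 6, .e 3 6 6, .e 4 2 4, .e 4 2 4, .e 8 0 8, .e 9 3 3, .c 1 6 6, .c 1 6 6, .c 4 0 4, .c 3 10 3, .c 8 2 2, .c 8 2 2, .c 8 2 2, .c 9 8 8, .c 4 8 4])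
  (.leaf [.e 2 10 2, .e 3 6 6, .e 3 6 6, .e 4 2 4, .e 4 2 4, .e 8 0 8, .e 9 3 3, .c 4 0 4, .c 3 10 3, .c 8 2 2, .c 4 6 6, .c 4 6 6, .c 9 8 8, .c 8 4 4])
  (.leaf [.e 1 2 2, .e 1 2 2, .e 1 2 2, .e 1 2 2, .e 1 2 2, .e 1 2 2, .e 1 2 2, .e 1 2 2, .e 2 10 2, .e 2 10 2, .e 2 10 2, .e 2 10 2, .e 3 6 6, .e 3 6 6, .e 3 6 6, .e 3 6 6, .e 3 6 6, .e 3 6 6, .e 3 6 6, .e 3 6 6, .e 4 2 4, .e 4 2 4, .e 4 2 4, .e 4 2 4, .e 4 2 4, .e 4 2 4, .e 4 2 4, .e 4 2 4, .e 8 0 8, .e 8 0 8, .e 8 0 8, .e 8 0 8, .e 8 0 8, .e 8 0 8, .e 9 3 3, .e 9 3 3, .e 9 3 3, .e 9 3 3, .c 1 6 6, .c 1 6 6, .c 1 6 6, .c 1 6 6, .c 1 6 6, .c 1 6 6, .c 1 6 6, .c 1 6 6, .c 4 0 4, .c 4 0 4, .c 4 0 4, .c 4 0 4, .c 4 0 4, .c 4 0 4, .c 3 10 3, .c 3 10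 3, .c 3 10 3, .c 3 10 3, .c 8 2 2, .c 8 2 2, .c 8 2 2, .c 8 2 2, .c 8 2 2, .c 8 2 2, .c 8 2 2, .c 8 2 2, .c 8 2 2, .c 8 2 2, .c 8 2 2, .c 8 2 2, .c 9 4 4, .c 9 4 4, .c 9 4 4, .c 9 4 4, .c 4 8 8, .c 4 8 8, .c 4 8 8, .c 4 8 8, .c 4 8 8, .c 4 8 8, .e 4 3 4, .e 3 4 4])
  (.leaf [.e 8 0 8, .e 8 0 8, .c 4 0 4, .c 4 0 4, .c 8 4 8, .c 8 4 8, .e 4 3 4, .e 3 4 4]))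
  (.leaf [.e 2 10 2, .e 3 6 6, .e 3 6 6, .e 4 2 4, .e 4 2 4, .e 8 3 3, .e 9 0 9, .c 9 2 2, .c 4 0 4, .c 3 10 3, .c 4 6 6, .c 4 6 6, .c 9 4 4, .c 8 9 9])
  (.leaf [.e 0 6 6, .e 1 2 2, .e 9 0 9, .c 1 6 6, .c 8 2 2, .c 9 8 9]))
  (.leaf [.e 4 2 4, .e 4 2 4, .e 4 2 2, .e 4 2 2, .e 9 0 9, .e 9 0 9, .c 9 2 2, .c 9 2 2, .c 9 2 2, .c 9 2 2, .c 4 0 4, .c 4 0 4, .c 4 9 9, .c 4 9 9, .e 2 5 2, .e 5 2 2])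
  (.leaf [.e 9 0 9, .e 9 0 9, .c 4 0 4, .c 4 0 4, .c 9 4 9, .c 9 4 9, .e 4 3 4, .e 3 4 4]))
  (.leaf [.e 1 4 4, .e 6 0 6, .c 1 6 6, .c 4 0 4, .c 6 4 6, .c 6 4 6, .e 6 2 6, .e 2 6 6]))

def sp51 : Ct :=
  (.node 2 8
  (.leaf [.e 2 10 2, .e 3 8 3, .c 3 10 3, .c 2 8 2])
  sp50
  (.leaf [.e 1 8 8, .e 1 8 8, .e 2 10 2, .e 3 6 6, .e 3 6 6, .e 9 3 3, .c 1 6 6, .c 1 6 6, .c 9 2 2, .c 3 10 3, .c 2 8 8, .c 2 8 8])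
  (.leaf [.e 4 2 4, .e 8 0 8, .c 4 0 4, .c 8 2 8]))

def sp52 : Ct :=
  (.node 3 10
  sp51
  (.leaf [.e 9 3 3, .e 10 2 2, .c 9 2 2, .c 10 3 3])
  (.leaf [.e 1 10 10, .e 3 6 6, .c 1 6 6, .c 3 10 10])
  (.leaf [.e 4 3 4, .e 10 0 10, .c 4 0 4, .c 10 3 10]))

def sp53 : Ct :=
  (.node 0 4
  sp45
  (.leaf [.e 4 2 2, .e 9 0 0, .c 9 2 2, .c 4 0 0])
  (.leaf [.e 0 6 6, .e 1 4 4, .c 1 6 6, .c 0 4 4])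
  sp52)

def sp54 : Ct :=
  (.node 6 7
  (.node 4 7
  (.leaf [.e 0 2 0, .e 0 7 0, .e 3 4 4, .e 9 3 9, .c 9 2 9, .c 0 4 0, .c 0 4 0, .c 4 7 4])
  (.leaf [.e 1 4 4, .c 1 6 6, .c 6 7 6, .c 7 4 4, .e 6 2 6, .e 2 6 6])
  (.leaf [.e 0 2 0, .e 0 2 0, .e 0 2 0, .e 0 7 7, .e 0 7 7, .e 3 4 4, .e 3 5 3, .e 9 3 9, .e 9 3 9, .e 9 3 9, .e 10 0 0, .c 9 2 9, .c 9 2 9, .c 9 2 9, .c 0 4 0, .c 0 4 0, .c 0 4 0, .c 0 4 0, .c 10 3 3, .c 4 5 4, .c 4 7 7, .c 4 7 7])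
  (.leaf [.e 0 6 6, .e 0 7 7, .e 1 4 4, .e 3 5 3, .e 6 2 6, .e 6 2 6, .e 9 3 9, .e 9 3 9, .e 10 0 0, .c 1 6 6, .c 9 2 9, .c 9 2 9, .c 0 4 0, .c 10 3 3, .c 4 5 4, .c 6 7 6, .c 6 7 6, .c 7 4 7]))
  (.node 1 7
  (.leaf [.e 0 2 0, .e 0 2 0, .e 1 5 1, .e 3 4 4, .e 3 6 6, .e 9 3 9, .e 9 3 9, .c 9 2 9, .c 9 2 9, .c 0 4 0, .c 0 4 0, .c 4 5 4, .c 7 6 6, .c 1 7 1])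
  (.leaf [.e 7 3 3, .e 10 1 1, .c 10 3 3, .c 7 1 1])
  (.leaf [.e 0 2 0, .e 0 6 6, .e 0 6 6, .e 1 4 4, .e 3 5 3, .e 7 2 7, .e 9 3 9, .e 9 3 9, .e 10 0 0, .c 9 2 9, .c 9 2 9, .c 0 4 0, .c 0 4 0, .c 10 3 3, .c 4 5 4, .c 7 6 6, .c 7 6 6, .c 1 7 7])
  (.leaf [.e 3 6 6, .e 7 2 7, .e 9 3 9, .c 1 6 6, .c 9 2 9, .c 7 1 7]))
  (.leaf [.e 0 2 0, .e 0 7 7, .e 0 7 7, .e 1 4 4, .e 3 5 3, .e 6 2 6, .e 9 3 9, .e 9 3 9, .e 10 0 0, .c 1 6 6, .c 9 2 9, .c 9 2 9, .c 0 4 0, .c 0 4 0, .c 10 3 3, .c 4 5 4, .c 6 7 7, .c 6 7 7])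
  (.node 4 6
  (.leaf [.e 0 2 0, .e 0 6 0, .e 3 4 4, .e 9 3 9, .c 9 2 9, .c 0 4 0, .c 0 4 0, .c 4 6 4])
  (.leaf [.e 3 4 4, .e 7 2 7, .e 9 3 9, .c 9 2 9, .c 7 6 7, .c 6 4 4])
  (.leaf [.e 0 2 0, .e 3 6 6, .e 9 3 9, .c 9 2 9, .c 0 4 0, .c 4 6 6])
  (.leaf [.e 0 6 6, .e 0 6 6, .e 1 4 4, .e 3 5 3, .e 7 2 7, .e 7 2 7, .e 9 3 9, .e 9 3 9, .e 10 0 0, .c 1 6 6, .c 9 2 9, .c 9 2 9, .c 0 4 0, .c 10 3 3, .c 4 5 4, .c 7 6 7, .c 7 6 7, .c 6 4 6])))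

def sp55 : Ct :=
  (.node 6 7
  (.node 5 7
  (.leaf [.e 0 2 0, .e 0 7 0, .e 3 5 5, .e 9 3 9, .c 9 2 9, .c 0 5 0, .c 0 5 0, .c 5 7 5])
  (.leaf [.e 1 5 5, .c 1 6 6, .c 6 7 6, .c 7 5 5, .e 6 2 6, .e 2 6 6])
  (.leaf [.e 0 2 0, .e 0 2 0, .e 0 7 7, .e 0 7 7, .e 3 4 3, .e 9 3 9, .e 9 3 9, .e 10 0 0, .c 9 2 9, .c 9 2 9, .c 0 4 0, .c 10 3 3, .c 0 5 0, .c 0 5 0, .c 5 7 7, .c 5 7 7])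
  (.leaf [.e 0 6 6, .e 0 7 7, .e 1 5 5, .e 3 4 3, .e 6 2 6, .e 6 2 6, .e 9 3 9, .e 9 3 9, .e 10 0 0, .c 1 6 6, .c 9 2 9, .c 9 2 9, .c 10 3 3, .c 0 5 0, .c 5 4 5, .c 6 7 6, .c 6 7 6, .c 7 5 7]))
  (.node 1 7
  (.leaf [.e 0 2 0, .e 1 4 1, .e 3 6 6, .e 9 3 9, .c 9 2 9, .c 0 4 0, .c 7 6 6, .c 1 7 1])
  (.leaf [.e 7 3 3, .e 10 1 1, .c 10 3 3, .c 7 1 1])
  (.leaf [.e 0 2 0, .e 0 6 6, .e 0 6 6, .e 1 5 5, .e 3 4 3, .e 7 2 7, .e 9 3 9, .e 9 3 9, .e 10 0 0, .c 9 2 9, .c 9 2 9, .c 10 3 3, .c 0 5 0, .c 0 5 0, .c 5 4 5, .c 7 6 6, .c 7 6 6, .c 1 7 7])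
  (.leaf [.e 3 6 6, .e 7 2 7, .e 9 3 9, .c 1 6 6, .c 9 2 9, .c 7 1 7]))
  (.leaf [.e 0 2 0, .e 0 7 7, .e 0 7 7, .e 1 5 5, .e 3 4 3, .e 6 2 6, .e 9 3 9, .e 9 3 9, .e 10 0 0, .c 1 6 6, .c 9 2 9, .c 9 2 9, .c 10 3 3, .c 0 5 0, .c 0 5 0, .c 5 4 5, .c 6 7 7, .c 6 7 7])
  (.node 5 6
  (.leaf [.e 0 2 0, .e 0 6 0, .e 3 5 5, .e 9 3 9, .c 9 2 9, .c 0 5 0, .c 0 5 0, .c 5 6 5])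
  (.leaf [.e 3 5 5, .e 7 2 7, .e 9 3 9, .c 9 2 9, .c 7 6 7, .c 6 5 5])
  (.leaf [.e 0 2 0, .e 3 6 6, .e 9 3 9, .c 9 2 9, .c 0 5 0, .c 5 6 6])
  (.leaf [.e 0 6 6, .e 0 6 6, .e 1 5 5, .e 3 4 3, .e 7 2 7, .e 7 2 7, .e 9 3 9, .e 9 3 9, .e 10 0 0, .c 1 6 6, .c 9 2 9, .c 9 2 9, .c 10 3 3, .c 0 5 0, .c 5 4 5, .c 7 6 7, .c 7 6 7, .c 6 5 6])))

def sp56 : Ct :=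
  (.node 4 5
  sp54
  (.leaf [.e 0 2 0, .e 3 4 4, .e 9 3 9, .c 9 2 9, .c 0 5 0, .c 5 4 4])
  (.leaf [.e 0 2 0, .e 3 5 5, .e 9 3 9, .c 9 2 9, .c 0 4 0, .c 4 5 5])
  sp55)

def sp57 : Ct :=
  (.node 0 5
  sp56
  (.leaf [.e 5 3 3, .e 10 0 0, .c 10 3 3, .c 5 0 0])
  (.leaf [.e 0 6 6, .e 1 5 5, .c 1 6 6, .c 0 5 5])
  (.leaf [.e 3 4 3, .e 5 2 5, .e 5 2 5, .e 9 3 9, .e 9 3 9, .e 10 0 0, .c 9 2 9, .c 9 2 9, .c 0 4 0, .c 10 3 3, .c 5 0 5, .c 5 0 5]))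

def sp58 : Ct :=
  (.node 3 10
  (.leaf [.e 0 10 0, .e 3 4 3, .c 0 4 0, .c 3 10 3])
  sp57
  (.leaf [.e 1 10 10, .e 3 6 6, .c 1 6 6, .c 3 10 10])
  (.leaf [.e 9 3 9, .e 10 2 10, .c 9 2 9, .c 10 3 10]))

def sp59 : Ct :=
  (.node 7 9
  (.leaf [.e 0 10 0, .e 1 0 0, .e 1 9 9, .e 3 6 6, .e 3 6 6, .e 4 2 4, .e 5 3 3, .e 7 0 7, .e 7 0 7, .c 1 6 6, .c 1 6 6, .c 9 2 9, .c 4 0 0, .c 4 0 0, .c 3 10 3, .c 5 4 4, .c 7 9 7, .c 7 9 7])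
  (.node 4 9
  (.leaf [.e 0 10 0, .e 1 0 0, .e 1 9 9, .e 3 6 6, .e 3 6 6, .e 4 2 4, .e 4 2 4, .e 4 2 4, .e 5 3 3, .e 9 0 9, .e 9 0 9, .c 1 6 6, .c 1 6 6, .c 9 2 9, .c 9 2 9, .c 9 2 9, .c 4 0 0, .c 4 0 0, .c 3 10 3, .c 5 4 4, .c 4 9 4, .c 4 9 4])
  (.leaf [.e 1 0 0, .e 3 6 6, .e 4 2 4, .e 9 0 0, .e 9 3 9, .c 1 6 6, .c 9 2 9, .c 4 0 0, .c 4 0 0, .c 9 4 4])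
  (.leaf [.e 0 10 0, .e 3 7 7, .e 3 7 7, .e 4 2 4, .e 5 3 3, .e 9 0 9, .e 9 0 9, .c 9 2 9, .c 4 0 0, .c 3 10 3, .c 5 4 4, .c 9 7 7, .c 9 7 7, .c 4 9 9])
  (.leaf [.e 0 10 0, .e 1 0 0, .e 1 0 0, .e 3 6 6, .e 3 6 6, .e 4 2 4, .e 5 3 3, .e 9 0 9, .e 9 0 9, .c 1 6 6, .c 1 6 6, .c 9 2 9, .c 4 0 0, .c 4 0 0, .c 4 0 0, .c 3 10 3, .c 5 4 4, .c 9 4 9]))
  (.node 4 7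
  (.leaf [.e 0 10 0, .e 1 0 0, .e 1 9 9, .e 3 6 6, .e 3 6 6, .e 4 2 4, .e 4 2 4, .e 5 3 3, .e 9 0 9, .e 9 0 9, .c 1 6 6, .c 1 6 6, .c 9 2 9, .c 9 2 9, .c 4 0 0, .c 4 0 0, .c 3 10 3, .c 5 4 4, .c 7 9 9, .c 4 7 4])
  (.leaf [.e 4 2 4, .e 7 0 0, .e 7 0 0, .c 9 2 9, .c 4 0 0, .c 4 0 0, .c 7 9 9, .c 7 4 4, .e 9 1 9, .e 1 9 9])
  (.leaf [.e 0 10 0, .e 1 9 9, .e 1 9 9, .e 3 6 6, .e 3 6 6, .e 4 2 4, .e 5 3 3, .e 7 0 7, .e 9 0 9, .c 1 6 6, .c 1 6 6, .c 9 2 9, .c 4 0 0, .c 3 10 3, .c 5 4 4, .c 7 9 9, .c 7 9 9, .c 4 7 7])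
  (.leaf [.e 0 10 0, .e 3 7 7, .e 3 7 7, .e 4 2 4, .e 5 3 3, .e 7 0 7, .e 7 0 7, .e 7 0 0, .e 7 0 0, .e 7 0 0, .e 7 0 0, .e 7 0 0, .c 9 2 9, .c 4 0 0, .c 4 0 0, .c 4 0 0, .c 4 0 0, .c 4 0 0, .c 4 0 0, .c 3 10 3, .c 5 4 4, .c 7 9 9, .c 7 4 7, .c 7 4 7, .c 7 4 7, .c 7 4 7, .e 9 1 9, .e 1 9 9]))
  (.node 6 7
  (.node 7 10
  (.leaf [.e 0 10 0, .e 0 10 0, .e 0 10 0, .e 1 0 0, .e 3 6 6, .e 3 6 6, .e 3 6 6, .e 3 7 7, .e 4 2 4, .e 4 2 4, .e 5 3 3, .e 5 3 3, .e 9 0 9, .e 9 0 9, .e 9 0 9, .e 9 0 9, .e 9 0 9, .e 9 0 9, .c 1 6 6, .c 9 2 9, .c 9 2 9, .c 4 0 0, .c 4 0 0, .c 4 0 0, .c 4 0 0, .c 3 10 3, .c 3 10 3, .c 5 4 4, .c 5 4 4, .c 9 6 9, .c 9 6 9, .c 9 6 9, .c 9 6 9, .c 6 7 6, .c 6 7 6, .c 7 10 7])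
  (.leaf [.e 1 0 0, .e 1 0 0, .e 3 6 6, .e 3 6 6, .e 3 7 7, .e 4 2 4, .e 5 3 3, .e 9 3 9, .c 1 6 6, .c 1 6 6, .c 9 2 9, .c 4 0 0, .c 4 0 0, .c 3 10 3, .c 5 4 4, .c 10 7 7])
  (.leaf [.e 0 10 0, .e 1 0 0, .e 1 10 10, .e 1 10 10, .e 3 6 6, .e 3 6 6, .e 3 6 6, .e 4 2 4, .e 5 3 3, .e 6 0 6, .e 6 0 6, .e 9 3 9, .c 1 6 6, .c 1 6 6, .c 1 6 6, .c 9 2 9, .c 4 0 0, .c 4 0 0, .c 3 10 3, .c 5 4 4, .c 6 7 6, .c 6 7 6, .c 7 10 10, .c 7 10 10])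
  (.leaf [.e 1 0 0, .e 1 0 0, .e 1 10 10, .e 3 6 6, .e 3 6 6, .e 3 6 6, .e 3 7 3, .e 4 2 4, .e 5 3 3, .e 9 3 9, .c 1 6 6, .c 1 6 6, .c 1 6 6, .c 9 2 9, .c 4 0 0, .c 4 0 0, .c 3 10 3, .c 3 10 3, .c 5 4 4, .c 10 7 10]))
  (.leaf [.e 0 10 0, .e 1 0 0, .e 3 6 6, .e 3 6 6, .e 4 2 4, .e 5 3 3, .e 9 0 9, .e 9 0 9, .c 1 6 6, .c 9 2 9, .c 4 0 0, .c 4 0 0, .c 3 10 3, .c 5 4 4, .c 9 7 9, .c 7 6 6])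
  (.leaf [.e 0 10 0, .e 1 0 0, .e 3 6 6, .e 3 7 7, .e 4 2 4, .e 5 3 3, .e 9 0 9, .e 9 0 9, .c 1 6 6, .c 9 2 9, .c 4 0 0, .c 4 0 0, .c 3 10 3, .c 5 4 4, .c 9 6 9, .c 6 7 7])
  (.leaf [.e 0 10 0, .e 0 10 0, .e 3 6 6, .e 3 7 7, .e 4 2 4, .e 5 3 3, .e 7 2 7, .e 9 0 9, .e 9 0 9, .e 9 0 9, .e 9 0 9, .c 9 2 9, .c 9 2 9, .c 4 0 0, .c 4 0 0, .c 3 10 3, .c 5 4 4, .c 6 10 6, .c 9 7 9, .c 9 7 9, .c 7 6 7, .c 7 6 7])))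

def sp60 : Ct :=
  (.node 6 10
  sp59
  (.leaf [.e 1 0 0, .e 1 0 0, .e 3 6 6, .e 3 6 6, .e 3 6 6, .e 4 2 4, .e 5 3 3, .e 9 3 9, .c 1 6 6, .c 1 6 6, .c 9 2 9, .c 4 0 0, .c 4 0 0, .c 3 10 3, .c 5 4 4, .c 10 6 6])
  (.leaf [.e 0 10 0, .e 1 0 0, .e 1 10 10, .e 1 10 10, .e 1 10 10, .e 1 10 10, .e 3 6 6, .e 3 6 6, .e 3 6 6, .e 4 2 4, .e 5 3 3, .e 6 0 6, .e 6 0 6, .e 9 3 9, .c 1 6 6, .c 1 6 6, .c 1 6 6, .c 1 6 6, .c 1 6 6, .c 9 2 9, .c 4 0 0, .c 4 0 0, .c 3 10 3, .c 5 4 4, .c 6 10 10, .c 6 10 10, .c 6 10 10, .c 6 10 10])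
  (.leaf [.e 1 0 0, .e 1 0 0, .e 1 10 10, .e 3 6 3, .e 3 6 6, .e 3 6 6, .e 3 6 6, .e 4 2 4, .e 5 3 3, .e 9 3 9, .c 1 6 6, .c 1 6 6, .c 1 6 6, .c 9 2 9, .c 4 0 0, .c 4 0 0, .c 3 10 3, .c 3 10 3, .c 5 4 4, .c 10 6 10]))

def sp61 : Ct :=
  (.node 6 9
  (.leaf [.e 0 10 0, .e 1 0 0, .e 3 9 9, .e 3 9 9, .e 4 2 4, .e 5 3 3, .e 6 2 6, .e 6 2 6, .e 6 2 6, .e 9 0 9, .e 9 0 9, .c 1 6 6, .c 9 2 9, .c 9 2 9, .c 9 2 9, .c 9 2 9, .c 4 0 0, .c 4 0 0, .c 3 10 3, .c 5 4 4, .c 6 9 6, .c 6 9 6, .c 6 9 6, .c 6 9 6, .e 6 2 6, .e 2 6 6])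
  (.node 4 9
  (.leaf [.e 0 10 0, .e 1 0 0, .e 1 9 9, .e 3 6 6, .e 3 6 6, .e 4 2 4, .e 4 2 4, .e 4 2 4, .e 5 3 3, .e 9 0 9, .e 9 0 9, .c 1 6 6, .c 1 6 6, .c 9 2 9, .c 9 2 9, .c 9 2 9, .c 4 0 0, .c 4 0 0, .c 3 10 3, .c 5 4 4, .c 4 9 4, .c 4 9 4])
  (.leaf [.e 1 0 0, .e 3 6 6, .e 4 2 4, .e 9 0 0, .e 9 3 9, .c 1 6 6, .c 9 2 9, .c 4 0 0, .c 4 0 0, .c 9 4 4])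
  (.leaf [.e 0 10 0, .e 3 6 6, .e 3 6 6, .e 4 2 4, .e 5 3 3, .e 9 0 9, .e 9 0 9, .c 9 2 9, .c 4 0 0, .c 3 10 3, .c 5 4 4, .c 9 6 6, .c 9 6 6, .c 4 9 9])
  (.leaf [.e 0 10 0, .e 1 0 0, .e 1 0 0, .e 3 6 6, .e 3 6 6, .e 4 2 4, .e 5 3 3, .e 9 0 9, .e 9 0 9, .c 1 6 6, .c 1 6 6, .c 9 2 9, .c 4 0 0, .c 4 0 0, .c 4 0 0, .c 3 10 3, .c 5 4 4, .c 9 4 9]))
  (.leaf [.e 0 10 0, .e 1 0 0, .e 1 9 9, .e 3 9 9, .e 3 9 9, .e 4 2 4, .e 5 3 3, .e 6 0 6, .e 6 0 6, .c 1 6 6, .c 1 6 6, .c 9 2 9, .c 4 0 0, .c 4 0 0, .c 3 10 3, .c 5 4 4, .c 6 9 9, .c 6 9 9, .c 6 9 9, .c 6 9 9, .e 9 1 9, .e 1 9 9])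
  sp60)

def sp62 : Ct :=
  (.node 8 9
  (.leaf [.e 0 10 0, .e 1 0 0, .e 1 9 9, .e 3 6 6, .e 3 6 6, .e 4 3 3, .e 5 2 5, .e 8 0 8, .e 8 0 8, .c 1 6 6, .c 1 6 6, .c 9 2 9, .c 3 10 3, .c 5 0 0, .c 5 0 0, .c 4 5 5, .c 8 9 8, .c 8 9 8])
  (.node 5 9
  (.leaf [.e 5 2 5, .e 5 2 5, .c 9 2 9, .c 9 2 9, .c 5 9 5, .c 5 9 5, .e 9 1 9, .e 1 9 9])
  (.leaf [.e 1 0 0, .e 3 6 6, .e 5 2 5, .e 9 0 0, .e 9 3 9, .c 1 6 6, .c 9 2 9, .c 5 0 0, .c 5 0 0, .c 9 5 5])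
  (.leaf [.e 0 10 0, .e 1 8 8, .e 1 8 8, .e 3 6 6, .e 3 6 6, .e 4 3 3, .e 5 2 5, .e 9 0 9, .e 9 0 9, .c 1 6 6, .c 1 6 6, .c 9 2 9, .c 3 10 3, .c 5 0 0, .c 4 5 5, .c 9 8 8, .c 9 8 8, .c 5 9 9])
  (.leaf [.e 0 10 0, .e 1 0 0, .e 1 0 0, .e 3 6 6, .e 3 6 6, .e 4 3 3, .e 5 2 5, .e 9 0 9, .e 9 0 9, .c 1 6 6, .c 1 6 6, .c 9 2 9, .c 3 10 3, .c 5 0 0, .c 5 0 0, .c 5 0 0, .c 4 5 5, .c 9 5 9]))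
  (.node 5 8
  (.leaf [.e 5 2 5, .c 9 2 9, .c 8 9 9, .c 5 8 5, .e 9 1 9, .e 1 9 9])
  (.leaf [.e 5 2 5, .e 8 0 0, .e 8 0 0, .c 9 2 9, .c 5 0 0, .c 5 0 0, .c 8 9 9, .c 8 5 5, .e 9 1 9, .e 1 9 9])
  (.leaf [.e 0 10 0, .e 1 9 9, .e 1 9 9, .e 3 6 6, .e 3 6 6, .e 4 3 3, .e 5 2 5, .e 8 0 8, .e 9 0 9, .c 1 6 6, .c 1 6 6, .c 9 2 9, .c 3 10 3, .c 5 0 0, .c 4 5 5, .c 8 9 9, .c 8 9 9, .c 5 8 8])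
  (.leaf [.e 0 10 0, .e 1 0 0, .e 1 0 0, .e 3 6 6, .e 3 6 6, .e 4 3 3, .e 5 2 5, .e 8 0 8, .e 8 0 8, .e 8 0 0, .c 1 6 6, .c 1 6 6, .c 9 2 9, .c 3 10 3, .c 5 0 0, .c 5 0 0, .c 5 0 0, .c 5 0 0, .c 4 5 5, .c 8 9 9, .c 8 5 8, .c 8 5 8, .e 9 1 9, .e 1 9 9]))
  (.node 2 8
  (.leaf [.e 2 10 2, .e 3 8 3, .c 3 10 3, .c 2 8 2])
  (.leaf [.e 1 0 0, .e 3 6 6, .e 4 2 2, .e 9 3 9, .c 1 6 6, .c 4 0 0, .c 9 8 9, .c 8 2 2])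
  (.leaf [.e 0 10 0, .e 1 0 0, .e 1 8 8, .e 3 6 6, .e 3 6 6, .e 4 3 3, .e 5 2 5, .e 9 0 9, .e 9 0 9, .c 1 6 6, .c 1 6 6, .c 9 2 9, .c 9 2 9, .c 3 10 3, .c 5 0 0, .c 5 0 0, .c 4 5 5, .c 2 8 8])
  (.leaf [.e 0 10 0, .e 1 0 0, .e 1 8 8, .e 3 6 6, .e 3 6 6, .e 4 3 3, .e 5 2 5, .e 9 0 9, .e 9 0 9, .c 1 6 6, .c 1 6 6, .c 3 10 3, .c 5 0 0, .c 5 0 0, .c 4 5 5, .c 9 8 9, .c 9 8 9, .c 8 2 8])))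

def sp63 : Ct :=
  (.node 4 5
  (.leaf [.e 1 0 0, .e 3 6 6, .e 4 2 4, .e 9 3 9, .c 1 6 6, .c 9 2 9, .c 5 0 0, .c 4 5 4])
  sp61
  sp62
  (.leaf [.e 1 0 0, .e 3 6 6, .e 5 2 5, .e 9 3 9, .c 1 6 6, .c 9 2 9, .c 4 0 0, .c 5 4 5]))

def sp64 : Ct :=
  (.node 0 5
  (.leaf [.e 0 10 0, .e 3 5 3, .c 3 10 3, .c 0 5 0])
  sp63
  (.leaf [.e 0 10 0, .e 1 5 5, .e 1 5 5, .e 3 6 6, .e 3 6 6, .e 4 3 3, .c 1 6 6, .c 1 6 6, .c 4 0 0, .c 3 10 3, .c 0 5 5, .c 0 5 5])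
  (.leaf [.e 5 2 5, .e 9 0 9, .c 9 2 9, .c 5 0 5]))

def sp65 : Ct :=
  (.node 3 10
  sp64
  (.leaf [.e 4 3 3, .e 10 0 0, .c 4 0 0, .c 10 3 3])
  (.leaf [.e 1 10 10, .e 3 6 6, .c 1 6 6, .c 3 10 10])
  (.leaf [.e 9 3 9, .e 10 2 10, .c 9 2 9, .c 10 3 10]))

def sp66 : Ct :=
  (.node 0 4
  sp58
  sp65
  (.leaf [.e 0 6 6, .e 1 4 4, .c 1 6 6, .c 0 4 4])
  (.leaf [.e 4 2 4, .e 9 0 9, .c 9 2 9, .c 4 0 4]))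

def sp67 : Ct :=
  (.node 2 9
  sp42
  sp53
  (.leaf [.e 1 9 9, .e 2 6 6, .c 1 6 6, .c 2 9 9])
  sp66)

def sp68 : Ct :=
  (.node 1 6
  sp28
  (.leaf [.o, .o, .c 6 1 1, .c 6 1 1, .e 1 0 1, .e 0 1 1])
  sp67
  (.leaf [.o, .o, .c 6 1 6, .c 6 1 6, .e 6 2 6, .e 2 6 6]))

theorem sp_check : sp68.check spE spF 6 1 [] = true := by decide +kernel

theorem spG_not_unit : ¬ UnitMax spG := by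
  refine not_unitMax_of_check (E := spE) (F := spF) (fun u v h => ?_) (fun u v h => ?_) sp_check
  · have h1 := h
    simp only [spE, Bool.and_eq_true, decide_eq_true_eq] at h1
    exact ⟨h1.1.1.1, h1.1.1.2, h⟩
  · simp only [spF, Bool.and_eq_true, decide_eq_true_eq, bne_iff_ne, Bool.not_eq_true'] at h
    refine ⟨h.1.1.1, h.1.1.2, h.1.2, fun h1 => ?_⟩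
    have h2 : spE u v = true := h1
    rw [h.2] at h2
    exact Bool.false_ne_true h2

theorem spG_proper : ProperMax spG :=
  properMax_of_int ![7, 8, 3, 4, 0, 1, 2, 5, 9, 19, 30]
    ![41, 42, 33, 34, 9, 17, 32, 35, 43, 44, 45] ![11, 1, 3, 5, 1, 9, 25, 28, 25, 15, 3]
    (by decide) (by decide) (by decide +kernel) (by decide +kernel)

theorem spG_split : spG.IsClique {v | (v : ℕ) < 4} ∧ spG.IsIndepSet {v | (v : ℕ) < 4}ᶜ := by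
  constructor
  · intro u hu v hv huv
    revert u v
    simp only [Set.mem_ofPred_eq]
    decide
  · intro u hu v hv huv
    revert u v
    simp only [Set.mem_compl_iff, Set.mem_ofPred_eq]
    decide

end Pool.Agent.P.MP_0f9430_co
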