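import Pool.Agent.P.MP_0f9430_co.Defs

/-! Proper sum-tolerance graphs are unit max-tolerance graphs. -/

namespace Pool.Agent.P.MP_0f9430_co

variable {V : Type}

theorem four_le {j m : ℕ} (h : j ≤ m) : (4 : ℝ) ^ j ≤ 4 ^ m := pow_le_pow_right₀ (by norm_num) h

theorem four_lt {j m : ℕ} (h : j < m) : 4 * (4 : ℝ) ^ j ≤ 4 ^ m := by
  rw [← pow_succ']
  exact four_le h

theorem unitMax_of_levels [Finite V] {G : SimpleGraph V} (j m : V → ℕ) (hj : Function.Injective j)
    (h : ∀ u v, u ≠ v → (G.Adj u v ↔ j v ≤ m u ∧ j u ≤ m v)) : UnitMax G := by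
  let x : V → ℝ := fun u => if j u ≤ m u then 4 ^ j u else -4 ^ j u
  let s : V → ℝ := fun u => 4 ^ j u + 4 ^ m u
  have p : ∀ n : ℕ, (0 : ℝ) < 4 ^ n := fun n => by positivity
  have key : ∀ u v, j u ≤ m u ∨ j v ≤ m v → (j v ≤ m u ↔ |x u - x v| ≤ s u) := by
    intro u v huv
    have p1 := p (j u)
    have p2 := p (j v)
    have p3 := p (m u)
    simp only [x, s, abs_le]
    split_ifs with h1 h2 h2
    · have := four_le h1
      refine ⟨fun h3 => ?_, fun h3 => ?_⟩
      · have := four_le h3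
        constructor <;> linarith
      · by_contra h4
        have := four_lt (not_le.1 h4)
        linarith [h3.1]
    · refine ⟨fun h3 => ?_, fun h3 => ?_⟩
      · have := four_le h3
        constructor <;> linarith
      · by_contra h4
        have := four_lt (not_le.1 h4)
        linarith [h3.2]
    · refine ⟨fun h3 => ?_, fun h3 => ?_⟩
      · have := four_le h3
        constructor <;> linarith
      · by_contra h4
        have := four_lt (not_le.1 h4)
        linarith [h3.1]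
    · exact absurd huv (not_or.2 ⟨h1, h2⟩)
  have red : ∀ u v, m u < j u → m v < j v → j u < j v → ¬ |x u - x v| ≤ s u := by
    intro u v h1 h2 h3 h4
    have p1 := p (j u)
    have := four_lt h1
    have := four_lt h3
    have p3 := p (m u)
    simp only [x, s, abs_le, if_neg (not_le.2 h1), if_neg (not_le.2 h2)] at h4
    linarith [h4.2]
  refine unitMax_of_central x s fun u v huv => ?_
  rw [h u v huv]
  by_cases hb : j u ≤ m u ∨ j v ≤ m v
  · rw [key u v hb, key v u hb.symm, abs_sub_comm (x v)]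
  · rw [not_or, not_le, not_le] at hb
    refine ⟨fun h1 => by omega, fun h1 => ?_⟩
    rcases lt_or_gt_of_ne (hj.ne huv) with h2 | h2
    · exact absurd h1.1 (red u v hb.1 hb.2 h2)
    · exact absurd (abs_sub_comm (x u) (x v) ▸ h1.2) (red v u hb.2 hb.1 h2)

theorem unitMax_of_cott [Finite V] {G : SimpleGraph V} (a b : V → ℝ)
    (h : ∀ u v, u ≠ v → (G.Adj u v ↔ a v ≤ b u ∧ a u ≤ b v)) : UnitMax G := by
  obtain ⟨M, ⟨e⟩⟩ := Finite.exists_equiv_fin V
  let k : ℝ → ℕ := fun y => {v | a v ≤ y}.ncard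
  have hk : ∀ u v, a v ≤ b u ↔ k (a v) ≤ k (b u) := by
    intro u v
    refine ⟨fun h1 => Set.ncard_le_ncard (fun w hw => le_trans hw h1) (Set.toFinite _),
      fun h1 => ?_⟩
    by_contra h2
    refine absurd h1 (not_le.2 (Set.ncard_lt_ncard ⟨fun w hw => ?_, fun h3 => ?_⟩ (Set.toFinite _)))
    · exact le_trans hw (not_le.1 h2).le
    · exact h2 (h3 (show v ∈ {w | a w ≤ a v} from le_refl (a v)))
  have hl : ∀ (p q : ℕ) (v : V), (e v : ℕ) + M * p ≤ M - 1 + M * q ↔ p ≤ q := by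
    intro p q v
    have h1 := (e v).2
    constructor
    · intro h2
      by_contra h3
      have h4 : M * (q + 1) ≤ M * p := Nat.mul_le_mul_left M (not_le.1 h3)
      rw [mul_add, mul_one] at h4
      omega
    · intro h2
      have h4 : M * p ≤ M * q := Nat.mul_le_mul_left M h2
      omega
  refine unitMax_of_levels (fun v => (e v : ℕ) + M * k (a v)) (fun v => M - 1 + M * k (b v))
    (fun u v h1 => ?_) fun u v huv => ?_
  · have h2 := congrArg (· % M) h1
    simp only [Nat.add_mul_mod_self_left, Nat.mod_eq_of_lt (e u).2, Nat.mod_eq_of_lt (e v).2] at h2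
    exact e.injective (Fin.ext h2)
  · rw [h u v huv, hl, hl, hk, hk]

theorem unitMax_of_sum [Finite V] {G : SimpleGraph V} (ρ : Rep V) (h : ρ.IsSum G)
    (hp : ∀ u v, ¬ ρ.I u ⊂ ρ.I v) : UnitMax G := by
  have h1 : ∀ u v, ρ.L u < ρ.L v → ρ.R u < ρ.R v := by
    intro u v h2
    by_contra h3
    refine hp v u ⟨Set.Icc_subset_Icc h2.le (not_lt.1 h3), fun h4 => ?_⟩
    exact absurd (h4 ⟨le_rfl, ρ.le u⟩).1 (not_le.2 h2)
  refine unitMax_of_cott (fun v => ρ.L v + ρ.t v) (fun v => ρ.R v - ρ.t v) fun u v huv => ?_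
  rw [h u v huv, le_len_iff _ _ _ (add_pos (ρ.pos u) (ρ.pos v))]
  have h2 : (ρ.L u ≤ ρ.L v ∧ ρ.R u ≤ ρ.R v) ∨ (ρ.L v ≤ ρ.L u ∧ ρ.R v ≤ ρ.R u) := by
    rcases lt_trichotomy (ρ.L u) (ρ.L v) with h3 | h3 | h3
    · exact Or.inl ⟨h3.le, (h1 u v h3).le⟩
    · exact (le_total (ρ.R u) (ρ.R v)).imp (fun h4 => ⟨h3.le, h4⟩) fun h4 => ⟨h3.ge, h4⟩
    · exact Or.inr ⟨h3.le, (h1 v u h3).le⟩
  rcases h2 with ⟨h3, h4⟩ | ⟨h3, h4⟩
  · rw [min_eq_left h4, max_eq_right h3]
    exact ⟨fun h5 => ⟨by linarith, by linarith⟩, fun h5 => by linarith [h5.1]⟩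
  · rw [min_eq_right h4, max_eq_left h3]
    exact ⟨fun h5 => ⟨by linarith, by linarith⟩, fun h5 => by linarith [h5.2]⟩

end Pool.Agent.P.MP_0f9430_co
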